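import Mathlib

/-!
# Covers by few short intervals

`Cov m l E`: the set `E` is covered by `m` closed intervals of length `l`.
-/

open Set Filter Topology

namespace Pool.Agent.Lib.MP_ec260d_ntH

/-- `E` is covered by `m` closed intervals of length `l` -/
def Cov (m : ℕ) (l : ℝ) (E : Set ℝ) : Prop :=
  ∃ p : Fin m → ℝ, ∀ u ∈ E, ∃ i, p i ≤ u ∧ u ≤ p i + l

theorem Cov.mono {m m' : ℕ} {l l' : ℝ} {E E' : Set ℝ} (h : Cov m l E) (hm : m ≤ m') (hl : l ≤ l')
    (hE : E' ⊆ E) : Cov m' l' E' := by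
  obtain ⟨p, hp⟩ := h
  refine ⟨fun i => if hi : (i : ℕ) < m then p ⟨i, hi⟩ else 0, fun u hu => ?_⟩
  obtain ⟨i, h1, h2⟩ := hp u (hE hu)
  refine ⟨⟨i, lt_of_lt_of_le i.2 hm⟩, ?_, ?_⟩
  · simpa using h1
  · simp only [i.2, dif_pos]
    linarith

theorem Cov.union {m m' : ℕ} {l : ℝ} {E E' : Set ℝ} (h : Cov m l E) (h' : Cov m' l E') :
    Cov (m + m') l (E ∪ E') := by
  obtain ⟨p, hp⟩ := h
  obtain ⟨p', hp'⟩ := h'
  refine ⟨Fin.append p p', fun u hu => ?_⟩
  rcases hu with hu | hu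
  · obtain ⟨i, h1, h2⟩ := hp u hu
    exact ⟨Fin.castAdd m' i, by simpa using h1, by simpa using h2⟩
  · obtain ⟨i, h1, h2⟩ := hp' u hu
    exact ⟨Fin.natAdd m i, by simpa using h1, by simpa using h2⟩

theorem Cov.empty (l : ℝ) : Cov 0 l ∅ := ⟨Fin.elim0, fun _ hu => absurd hu (notMem_empty _)⟩

theorem Cov.single {l a : ℝ} {E : Set ℝ} (h : ∀ u ∈ E, a ≤ u ∧ u ≤ a + l) : Cov 1 l E :=
  ⟨fun _ => a, fun u hu => ⟨0, h u hu⟩⟩

/-- If `B` is covered by `m` intervals of length `l`, and points `u < v` of `E` with no point of `B`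
in between are at distance `≤ l'`, then `E` is covered by `2 m + 1` intervals of length
`max l l'`. -/
theorem cov_step {m : ℕ} {l l' : ℝ} {B E : Set ℝ} (hB : Cov m l B) (hbd : BddBelow E) (hl' : 0 ≤ l')
    (h : ∀ u ∈ E, ∀ v ∈ E, u < v → (∀ t ∈ Icc u v, t ∉ B) → v - u ≤ l') :
    Cov (m + (m + 1)) (max l l') E := by
  classical
  obtain ⟨p, hp⟩ := hB
  set J : Set ℝ := {u | ∃ i, p i ≤ u ∧ u ≤ p i + l} with hJ
  have hBJ : ∀ u, u ∉ J → u ∉ B := fun u hu hb => hu (hp u hb)
  set N : ℝ → ℕ := fun u => (Finset.univ.filter (fun i => p i ≤ u)).card with hN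
  have hNlt : ∀ u, N u < m + 1 := fun u => by
    have : N u ≤ (Finset.univ : Finset (Fin m)).card := Finset.card_le_card (Finset.filter_subset _ _)
    simpa using Nat.lt_succ_of_le this
  set S : ℕ → Set ℝ := fun j => {u | u ∈ E ∧ u ∉ J ∧ N u = j} with hS
  -- points of the same class have no point of `J` in between
  have hcl : ∀ u v, u < v → u ∉ J → N u = N v → v ∉ J → ∀ t ∈ Icc u v, t ∉ J := by
    rintro u v huv hu hN' hv t ht ⟨i, h1, h2⟩
    by_cases hiu : p i ≤ u
    · exact hu ⟨i, hiu, ht.1.trans h2⟩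
    · push Not at hiu
      have hiv : p i ≤ v := h1.trans ht.2
      have hlt : N u < N v := by
        refine Finset.card_lt_card ?_
        rw [Finset.ssubset_iff_of_subset]
        · exact ⟨i, by simpa using hiv, by simpa using hiu⟩
        · intro j hj
          simp only [Finset.mem_filter, Finset.mem_univ, true_and] at hj ⊢
          exact hj.trans huv.le
      omega
  refine ⟨fun i => Sum.elim p (fun j : Fin (m + 1) => sInf (S j)) (finSumFinEquiv.symm i),
    fun u hu => ?_⟩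
  by_cases huJ : u ∈ J
  · obtain ⟨i, h1, h2⟩ := huJ
    refine ⟨finSumFinEquiv (Sum.inl i), ?_, ?_⟩
    · simpa using h1
    · simp only [Equiv.symm_apply_apply, Sum.elim_inl]
      exact h2.trans (by linarith [le_max_left l l'])
  · refine ⟨finSumFinEquiv (Sum.inr ⟨N u, hNlt u⟩), ?_, ?_⟩
    · simp only [Equiv.symm_apply_apply, Sum.elim_inr]
      refine csInf_le ?_ ⟨hu, huJ, rfl⟩
      obtain ⟨a, ha⟩ := hbd
      exact ⟨a, fun x hx => ha hx.1⟩
    · simp only [Equiv.symm_apply_apply, Sum.elim_inr]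
      have hkey : u - l' ≤ sInf (S (N u)) := by
        refine le_csInf ⟨u, hu, huJ, rfl⟩ ?_
        rintro v ⟨hvE, hvJ, hvN⟩
        rcases lt_or_ge v u with hvu | hvu
        · have := h v hvE u hu hvu (fun t ht => hBJ t (hcl v u hvu hvJ hvN huJ t ht))
          linarith
        · linarith
      linarith [le_max_right l l']

end Pool.Agent.Lib.MP_ec260d_ntH
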