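import Mathlib
import Pool.Agent.Lib.MP_ec260d_ntH.Cov

/-!
# Sublevel sets of linear combinations of tame functions

Let `T` be a class of functions closed under quotients and derivatives, whose members and the ratios
`f / f'` are of polynomial size. For linearly independent members `h 1, .., h n` there are `m, K` and
`γ > 0` such that for large `U`, all `0 < η ≤ 1` and all real coefficients the set of the `u` in
`[U, U + 1]` with `|∑ c i * h i u| < η * ∑ |c i| * |h i u|` is covered by `m` intervals of length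
`U ^ K * η ^ γ`. Induction: divide by `h 0`, differentiate, mean value theorem.
-/

open Set Filter Topology

namespace Pool.Agent.Lib.MP_ec260d_ntH

/-- a class of functions closed under quotients and derivatives, of polynomial size -/
structure Tame (T : (ℝ → ℝ) → Prop) : Prop where
  div : ∀ f g, T f → T g → T (fun u => f u / g u)
  der : ∀ f, T f → T (deriv f)
  diff : ∀ f, T f → ∀ᶠ u in atTop, DifferentiableAt ℝ f u
  alt : ∀ f, T f → (∀ᶠ u in atTop, f u = 0) ∨ ((∀ᶠ u in atTop, f u ≠ 0) ∧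
    ∃ K : ℕ, ∀ᶠ U in atTop, ∀ u ∈ Icc U (U + 1), ∀ v ∈ Icc U (U + 1), |f u| ≤ U ^ K * |f v|)
  low : ∀ f, T f → ¬ (∀ᶠ u in atTop, deriv f u = 0) →
    ∃ K : ℕ, ∀ᶠ u in atTop, |f u| ≤ u ^ K * |deriv f u|

/-- linear independence of germs at infinity -/
def LI {n : ℕ} (h : Fin n → ℝ → ℝ) : Prop :=
  ∀ c : Fin n → ℝ, (∀ᶠ u in atTop, ∑ i, c i * h i u = 0) → c = 0

theorem LI.ne {n : ℕ} {h : Fin n → ℝ → ℝ} (hL : LI h) (i : Fin n) : ¬ ∀ᶠ u in atTop, h i u = 0 := by
  intro h0
  have := hL (Pi.single i 1) (by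
    filter_upwards [h0] with u hu
    simp [Pi.single_apply, hu])
  have h1 := congrFun this i
  simp at h1

private lemma const_of_deriv {H : ℝ → ℝ} {U : ℝ} (h : ∀ u, U ≤ u → HasDerivAt H 0 u) :
    ∀ u, U ≤ u → H u = H U := by
  intro u hu
  have h1 : ∀ x ∈ Icc U u, HasDerivWithinAt H 0 (Ici x) x := fun x hx => (h x hx.1).hasDerivWithinAt
  have h2 := constant_of_has_deriv_right_zero (f := H) (a := U) (b := u)
    (fun x hx => (h x hx.1).continuousAt.continuousWithinAt)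
    (fun x hx => (h x hx.1).hasDerivWithinAt)
  exact h2 u ⟨hu, le_rfl⟩

theorem LI.step {T : (ℝ → ℝ) → Prop} (hT : Tame T) {n : ℕ} {h : Fin (n + 1) → ℝ → ℝ}
    (hh : ∀ i, T (h i)) (hL : LI h) :
    LI (fun i : Fin n => deriv (fun u => h i.succ u / h 0 u)) := by
  intro c hc
  have hd : ∀ᶠ u in atTop, ∀ i : Fin n, DifferentiableAt ℝ (fun u => h i.succ u / h 0 u) u :=
    eventually_all.2 fun i => hT.diff _ (hT.div _ _ (hh _) (hh _))
  have h0 : ∀ᶠ u in atTop, h 0 u ≠ 0 := by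
    rcases hT.alt _ (hh 0) with h1 | h1
    · exact absurd h1 (hL.ne 0)
    · exact h1.1
  obtain ⟨U, hU⟩ := eventually_atTop.1 ((hc.and hd).and h0)
  have hH : ∀ u, U ≤ u → HasDerivAt (fun u => ∑ i : Fin n, c i * (h i.succ u / h 0 u)) 0 u := by
    intro u hu
    have h1 := HasDerivAt.fun_sum (u := Finset.univ) (A := fun (i : Fin n) u => c i * (h i.succ u / h 0 u))
      (A' := fun i => c i * deriv (fun u => h i.succ u / h 0 u) u) (x := u)
      (fun i _ => ((hU u hu).1.2 i).hasDerivAt.const_mul (c i))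
    rwa [(hU u hu).1.1] at h1
  have hcst := const_of_deriv hH
  set κ := ∑ i : Fin n, c i * (h i.succ U / h 0 U) with hκ
  have h2 := hL (Fin.cons (-κ) c) (by
    filter_upwards [eventually_ge_atTop U] with u hu
    have h3 := hcst u hu
    have h4 := (hU u hu).2
    rw [Fin.sum_univ_succ]
    simp only [Fin.cons_zero, Fin.cons_succ]
    have h5 : ∑ i : Fin n, c i * h i.succ u = κ * h 0 u := by
      rw [← h3, Finset.sum_mul]
      refine Finset.sum_congr rfl fun i _ => ?_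
      field_simp
    rw [h5]; ring)
  funext i
  have h3 := congrFun h2 i.succ
  simpa using h3

private lemma maxK {n : ℕ} {f g : Fin n → ℝ → ℝ}
    (h : ∀ i, ∃ K : ℕ, ∀ᶠ u in atTop, f i u ≤ u ^ K * g i u) (hg : ∀ i u, 0 ≤ g i u) :
    ∃ K : ℕ, ∀ᶠ u in atTop, ∀ i, f i u ≤ u ^ K * g i u := by
  choose K hK using h
  refine ⟨∑ i, K i, ?_⟩
  have h1 := eventually_all.2 hK
  filter_upwards [h1, eventually_ge_atTop (1 : ℝ)] with u hu hu1 i
  refine (hu i).trans ?_
  have h2 : K i ≤ ∑ i, K i := Finset.single_le_sum (fun _ _ => Nat.zero_le _) (Finset.mem_univ i)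
  exact mul_le_mul_of_nonneg_right (pow_le_pow_right₀ hu1 h2) (hg i u)

theorem cover {T : (ℝ → ℝ) → Prop} (hT : Tame T) : ∀ (n : ℕ) (h : Fin n → ℝ → ℝ), (∀ i, T (h i)) →
    LI h → ∃ (m K : ℕ) (γ : ℝ), 0 < γ ∧ γ ≤ 1 ∧ ∀ᶠ U in atTop, ∀ η : ℝ, 0 < η → η ≤ 1 →
      ∀ c : Fin n → ℝ, Cov m (U ^ K * η ^ γ)
        {u | u ∈ Icc U (U + 1) ∧ |∑ i, c i * h i u| < η * ∑ i, |c i| * |h i u|} := by
  intro n
  induction n with
  | zero =>
    intro h _ _
    refine ⟨0, 0, 1, one_pos, le_rfl, Eventually.of_forall fun U η _ _ c => ?_⟩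
    refine (Cov.empty _).mono le_rfl le_rfl ?_
    rintro u ⟨_, hu⟩
    simp at hu
  | succ n ih =>
    intro h hh hL
    set g : Fin n → ℝ → ℝ := fun i u => h i.succ u / h 0 u with hgdef
    have hgT : ∀ i, T (g i) := fun i => hT.div _ _ (hh _) (hh _)
    set G : Fin n → ℝ → ℝ := fun i => deriv (g i) with hGdef
    have hGT : ∀ i, T (G i) := fun i => hT.der _ (hgT i)
    have hGL : LI G := LI.step hT hh hL
    obtain ⟨m₁, K₁, γ₁, hγ₁, hγ₁1, hcov⟩ := ih G hGT hGL
    -- polynomial sizes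
    have h0 : ∀ᶠ u in atTop, h 0 u ≠ 0 := by
      rcases hT.alt _ (hh 0) with h1 | h1
      · exact absurd h1 (hL.ne 0)
      · exact h1.1
    have hgne : ∀ i, (∀ᶠ u in atTop, g i u ≠ 0) ∧ ∃ K : ℕ, ∀ᶠ U in atTop, ∀ u ∈ Icc U (U + 1),
        ∀ v ∈ Icc U (U + 1), |g i u| ≤ U ^ K * |g i v| := by
      intro i
      rcases hT.alt _ (hgT i) with h1 | h1
      · exfalso
        apply hL.ne i.succ
        filter_upwards [h1, h0] with u hu hu0
        rcases div_eq_zero_iff.1 hu with h2 | h2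
        · exact h2
        · exact absurd h2 hu0
      · exact h1
    obtain ⟨K₂, hK₂⟩ := maxK (f := fun i u => |g i u|) (g := fun i u => |G i u|)
      (fun i => hT.low _ (hgT i) (hGL.ne i)) (fun i u => abs_nonneg _)
    choose K3 hK3 using fun i => (hgne i).2
    obtain ⟨K₃, hK₃⟩ : ∃ K : ℕ, ∀ᶠ U in atTop, ∀ i, ∀ u ∈ Icc U (U + 1), ∀ v ∈ Icc U (U + 1),
        |g i u| ≤ U ^ K * |g i v| := by
      refine ⟨∑ i, K3 i, ?_⟩
      filter_upwards [eventually_all.2 hK3, eventually_ge_atTop (1 : ℝ)] with U hU hU1 i u hu v hv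
      refine (hU i u hu v hv).trans ?_
      have h2 : K3 i ≤ ∑ i, K3 i := Finset.single_le_sum (fun _ _ => Nat.zero_le _) (Finset.mem_univ i)
      exact mul_le_mul_of_nonneg_right (pow_le_pow_right₀ hU1 h2) (abs_nonneg _)
    have hgdiff : ∀ᶠ u in atTop, ∀ i, DifferentiableAt ℝ (g i) u :=
      eventually_all.2 fun i => hT.diff _ (hgT i)
    have hgn0 : ∀ᶠ u in atTop, ∀ i, g i u ≠ 0 := eventually_all.2 fun i => (hgne i).1
    obtain ⟨U₀, hU₀⟩ := eventually_atTop.1 (((h0.and hgdiff).and hgn0).and hK₂)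
    refine ⟨m₁ + (m₁ + 1), K₁ + 2 * K₂ + 2 * K₃ + 3, γ₁ / 2, by positivity, by linarith, ?_⟩
    filter_upwards [hcov, hK₃, eventually_ge_atTop U₀, eventually_ge_atTop (2 : ℝ)] with
      U hcovU hK₃U hUU₀ hU2 η hη hη1 c
    have hU0 : (0 : ℝ) < U := by linarith
    have hU1 : (1 : ℝ) ≤ U := by linarith
    have hηγ : 0 < η ^ (γ₁ / 2) := Real.rpow_pos_of_pos hη _
    set E : Set ℝ := {u | u ∈ Icc U (U + 1) ∧ |∑ i, c i * h i u| < η * ∑ i, |c i| * |h i u|} with hE
    -- the trivial range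
    rcases lt_or_ge (1 / 2) η with hη2 | hη2
    · refine (Cov.single (a := U) (l := 1) (E := E) (fun u hu => ⟨hu.1.1, hu.1.2⟩)).mono (by omega) ?_
        le_rfl
      have h1 : (1 : ℝ) / 2 ≤ η ^ (γ₁ / 2) := by
        have h2 : ((1 : ℝ) / 2) ^ (γ₁ / 2) ≤ η ^ (γ₁ / 2) :=
          Real.rpow_le_rpow (by norm_num) hη2.le (by positivity)
        have h3 : ((1 : ℝ) / 2) ^ (1 : ℝ) ≤ ((1 : ℝ) / 2) ^ (γ₁ / 2) :=
          Real.rpow_le_rpow_of_exponent_ge (by norm_num) (by norm_num) (by linarith)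
        rw [Real.rpow_one] at h3
        linarith
      have h4 : (2 : ℝ) ≤ U ^ (K₁ + 2 * K₂ + 2 * K₃ + 3) := by
        calc (2 : ℝ) ≤ U := hU2
          _ = U ^ 1 := (pow_one U).symm
          _ ≤ _ := pow_le_pow_right₀ hU1 (by omega)
      nlinarith
    -- all coefficients except the first vanish
    by_cases hc0 : ∀ i : Fin n, c i.succ = 0
    · refine (Cov.empty (U ^ (K₁ + 2 * K₂ + 2 * K₃ + 3) * η ^ (γ₁ / 2))).mono (by omega) le_rfl ?_
      rintro u ⟨_, hu⟩
      exfalso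
      rw [Fin.sum_univ_succ, Fin.sum_univ_succ] at hu
      simp only [hc0, zero_mul, Finset.sum_const_zero, add_zero, abs_zero] at hu
      rw [abs_mul] at hu
      have : 0 ≤ |c 0| * |h 0 u| := by positivity
      nlinarith
    push Not at hc0
    obtain ⟨i₀, hi₀⟩ := hc0
    set σ : ℝ → ℝ := fun u => ∑ i : Fin n, |c i.succ| * |g i u| with hσ
    have hσU : 0 < σ U := by
      have h1 : |c i₀.succ| * |g i₀ U| ≤ σ U :=
        Finset.single_le_sum (f := fun i : Fin n => |c i.succ| * |g i U|)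
          (fun i _ => by positivity) (Finset.mem_univ i₀)
      have h2 : 0 < |c i₀.succ| * |g i₀ U| :=
        mul_pos (abs_pos.2 hi₀) (abs_pos.2 ((hU₀ U hUU₀).1.2 i₀))
      linarith
    have hσle : ∀ u ∈ Icc U (U + 1), ∀ v ∈ Icc U (U + 1), σ u ≤ U ^ K₃ * σ v := by
      intro u hu v hv
      simp only [hσ]
      rw [Finset.mul_sum]
      refine Finset.sum_le_sum fun i _ => ?_
      have := hK₃U i u hu v hv
      calc |c i.succ| * |g i u| ≤ |c i.succ| * (U ^ K₃ * |g i v|) := by gcongr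
        _ = _ := by ring
    have hUmem : U ∈ Icc U (U + 1) := ⟨le_rfl, by linarith⟩
    set H : ℝ → ℝ := fun u => c 0 + ∑ i : Fin n, c i.succ * g i u with hH
    have hHd : ∀ u, U ≤ u → HasDerivAt H (∑ i : Fin n, c i.succ * G i u) u := by
      intro u hu
      have h1 := HasDerivAt.fun_sum (u := Finset.univ) (A := fun (i : Fin n) u => c i.succ * g i u)
        (A' := fun i => c i.succ * G i u) (x := u)
        (fun i _ => ((hU₀ u (hUU₀.trans hu)).1.1.2 i).hasDerivAt.const_mul (c i.succ))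
      exact h1.const_add (c 0)
    -- on `E`, `H` is small
    have hEH : ∀ u ∈ E, |H u| ≤ 4 * η * (U ^ K₃ * σ U) := by
      rintro u ⟨hu, hu2⟩
      have hne : h 0 u ≠ 0 := (hU₀ u (hUU₀.trans hu.1)).1.1.1
      have hne' : 0 < |h 0 u| := abs_pos.2 hne
      have e1 : ∑ i, c i * h i u = h 0 u * H u := by
        rw [Fin.sum_univ_succ, hH]
        simp only [hgdef]
        rw [mul_add, Finset.mul_sum]
        congr 1
        · ring
        · refine Finset.sum_congr rfl fun i _ => ?_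
          field_simp
      have e2 : ∑ i, |c i| * |h i u| = |h 0 u| * (|c 0| + σ u) := by
        rw [Fin.sum_univ_succ, mul_add, hσ]
        simp only [hgdef]
        rw [Finset.mul_sum]
        congr 1
        · ring
        · refine Finset.sum_congr rfl fun i _ => ?_
          rw [abs_div]
          field_simp
      rw [e1, e2, abs_mul] at hu2
      have h3 : |H u| < η * (|c 0| + σ u) := by
        have : |h 0 u| * |H u| < |h 0 u| * (η * (|c 0| + σ u)) := by
          calc _ < η * (|h 0 u| * (|c 0| + σ u)) := hu2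
            _ = _ := by ring
        exact lt_of_mul_lt_mul_left this hne'.le
      have h4 : |c 0| ≤ |H u| + σ u := by
        have h5 : c 0 = H u - ∑ i : Fin n, c i.succ * g i u := by simp only [hH]; ring
        have h6 : |∑ i : Fin n, c i.succ * g i u| ≤ σ u := by
          refine (Finset.abs_sum_le_sum_abs _ _).trans (Finset.sum_le_sum fun i _ => ?_)
          rw [abs_mul]
        calc |c 0| = |H u - ∑ i : Fin n, c i.succ * g i u| := by rw [← h5]
          _ ≤ |H u| + |∑ i : Fin n, c i.succ * g i u| := abs_sub _ _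
          _ ≤ _ := by linarith
      have h7 : 0 ≤ σ u := Finset.sum_nonneg fun i _ => by positivity
      have h8 : |c 0| ≤ 3 * σ u := by nlinarith [abs_nonneg (c 0)]
      have h9 : |H u| ≤ 4 * η * σ u := by nlinarith
      refine h9.trans ?_
      exact mul_le_mul_of_nonneg_left (hσle u hu U hUmem) (by positivity)
    -- the bad set of the derivative
    have hsη : 0 < Real.sqrt η := Real.sqrt_pos.2 hη
    have hsη1 : Real.sqrt η ≤ 1 := Real.sqrt_le_one.2 hη1
    have hB := hcovU (Real.sqrt η) hsη hsη1 (fun i => c i.succ)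
    have hlen : 0 ≤ 8 * (2 * U) ^ K₂ * U ^ (2 * K₃) * Real.sqrt η := by positivity
    have hst := cov_step hB (E := E) (l' := 8 * (2 * U) ^ K₂ * U ^ (2 * K₃) * Real.sqrt η)
      ⟨U, fun u hu => hu.1.1⟩ hlen (by
      intro u hu v hv huv hno
      have huI := hu.1
      have hvI := hv.1
      obtain ⟨ξ, hξ, hξ2⟩ := exists_hasDerivAt_eq_slope H (fun t => ∑ i : Fin n, c i.succ * G i t) huv
        (fun t ht => (hHd t (huI.1.trans ht.1)).continuousAt.continuousWithinAt)
        (fun t ht => hHd t (huI.1.trans ht.1.le))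
      have hξI : ξ ∈ Icc U (U + 1) := ⟨huI.1.trans hξ.1.le, hξ.2.le.trans hvI.2⟩
      have hlow : Real.sqrt η * ∑ i : Fin n, |c i.succ| * |G i ξ| ≤ |∑ i : Fin n, c i.succ * G i ξ| := by
        by_contra hcon
        push Not at hcon
        exact hno ξ ⟨hξ.1.le, hξ.2.le⟩ ⟨hξI, hcon⟩
      have hlow2 : σ ξ ≤ (2 * U) ^ K₂ * ∑ i : Fin n, |c i.succ| * |G i ξ| := by
        simp only [hσ]
        rw [Finset.mul_sum]
        refine Finset.sum_le_sum fun i _ => ?_
        have h1 := (hU₀ ξ (hUU₀.trans hξI.1)).2 i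
        have h2 : ξ ^ K₂ ≤ (2 * U) ^ K₂ := by
          have : 0 ≤ ξ := by linarith [hξI.1]
          gcongr
          linarith [hξI.2]
        calc |c i.succ| * |g i ξ| ≤ |c i.succ| * (ξ ^ K₂ * |G i ξ|) := by gcongr
          _ ≤ |c i.succ| * ((2 * U) ^ K₂ * |G i ξ|) := by gcongr
          _ = _ := by ring
      have hlow3 : σ U ≤ U ^ K₃ * σ ξ := hσle U hUmem ξ hξI
      set D : ℝ := |∑ i : Fin n, c i.succ * G i ξ| with hD
      -- `√η σ(U) ≤ U^K₃ (2U)^K₂ D`
      have h10 : Real.sqrt η * σ U ≤ U ^ K₃ * (2 * U) ^ K₂ * D := by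
        calc Real.sqrt η * σ U ≤ Real.sqrt η * (U ^ K₃ * σ ξ) := by gcongr
          _ ≤ Real.sqrt η * (U ^ K₃ * ((2 * U) ^ K₂ * ∑ i : Fin n, |c i.succ| * |G i ξ|)) := by
              gcongr
          _ = U ^ K₃ * (2 * U) ^ K₂ * (Real.sqrt η * ∑ i : Fin n, |c i.succ| * |G i ξ|) := by ring
          _ ≤ _ := by gcongr
      have h11 : D * (v - u) ≤ 8 * η * (U ^ K₃ * σ U) := by
        have h12 : D * (v - u) = |H v - H u| := by
          rw [hD, hξ2, abs_div, abs_of_pos (sub_pos.2 huv), div_mul_cancel₀ _ (sub_pos.2 huv).ne']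
        rw [h12]
        calc |H v - H u| ≤ |H v| + |H u| := abs_sub _ _
          _ ≤ _ := by linarith [hEH u hu, hEH v hv]
      -- conclude
      have hvu : 0 < v - u := sub_pos.2 huv
      have h13 : Real.sqrt η * σ U * (v - u) ≤
          U ^ K₃ * (2 * U) ^ K₂ * (8 * η * (U ^ K₃ * σ U)) := by
        calc Real.sqrt η * σ U * (v - u) ≤ U ^ K₃ * (2 * U) ^ K₂ * D * (v - u) := by gcongr
          _ = U ^ K₃ * (2 * U) ^ K₂ * (D * (v - u)) := by ring
          _ ≤ _ := by gcongr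
      have h14 : η = Real.sqrt η * Real.sqrt η := (Real.mul_self_sqrt hη.le).symm
      have h15 : (Real.sqrt η * σ U) * (v - u) ≤ (Real.sqrt η * σ U) *
          (8 * (2 * U) ^ K₂ * U ^ (2 * K₃) * Real.sqrt η) := by
        calc _ ≤ U ^ K₃ * (2 * U) ^ K₂ * (8 * η * (U ^ K₃ * σ U)) := h13
          _ = U ^ K₃ * (2 * U) ^ K₂ * (8 * (Real.sqrt η * Real.sqrt η) * (U ^ K₃ * σ U)) := by
              rw [← h14]
          _ = _ := by rw [show 2 * K₃ = K₃ + K₃ from two_mul K₃, pow_add]; ring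
      exact le_of_mul_le_mul_left h15 (by positivity))
    refine hst.mono le_rfl ?_ le_rfl
    have hpw : Real.sqrt η ≤ η ^ (γ₁ / 2) := by
      rw [Real.sqrt_eq_rpow]
      exact Real.rpow_le_rpow_of_exponent_ge hη hη1 (by linarith)
    refine max_le ?_ ?_
    · have h1 : Real.sqrt η ^ γ₁ = η ^ (γ₁ / 2) := by
        rw [Real.sqrt_eq_rpow, ← Real.rpow_mul hη.le]
        congr 1
        ring
      rw [h1]
      exact mul_le_mul_of_nonneg_right (pow_le_pow_right₀ hU1 (by omega)) hηγ.le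
    · have h2 : 8 * (2 * U) ^ K₂ * U ^ (2 * K₃) ≤ U ^ (K₁ + 2 * K₂ + 2 * K₃ + 3) := by
        have h3 : (8 : ℝ) ≤ U ^ 3 := by
          calc (8 : ℝ) = 2 ^ 3 := by norm_num
            _ ≤ U ^ 3 := by gcongr
        have h4 : (2 * U) ^ K₂ ≤ U ^ (2 * K₂) := by
          rw [pow_mul]
          refine pow_le_pow_left₀ (by positivity) ?_ _
          nlinarith
        have h5 : (1 : ℝ) ≤ U ^ K₁ := one_le_pow₀ hU1
        calc 8 * (2 * U) ^ K₂ * U ^ (2 * K₃) ≤ U ^ 3 * U ^ (2 * K₂) * U ^ (2 * K₃) := by gcongr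
          _ ≤ U ^ K₁ * (U ^ 3 * U ^ (2 * K₂) * U ^ (2 * K₃)) := le_mul_of_one_le_left (by positivity) h5
          _ = _ := by rw [pow_add, pow_add, pow_add]; ring
      calc 8 * (2 * U) ^ K₂ * U ^ (2 * K₃) * Real.sqrt η
          ≤ U ^ (K₁ + 2 * K₂ + 2 * K₃ + 3) * η ^ (γ₁ / 2) := by gcongr

end Pool.Agent.Lib.MP_ec260d_ntH
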