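import Mathlib
import Pool.Agent.Lib.MP_ec260d_nt.PairLower
import Pool.Agent.Lib.MP_ec260d_ntH.Cover

/-!
# Functions `exp (e u) Q (w u) / R (w u)`, `w i u = gE (A i + b i u)`

They form a tame class (closed under quotients and derivatives, of polynomial size).
-/

open Set Filter Topology

namespace Pool.Agent.Lib.MP_ec260d_ntH

open Pool.Agent.Lib.MP_ec260d_nt

theorem gE_hasDeriv (X : ℝ) : HasDerivAt gE (gE X / (1 + gE X)) X := by
  have h1 := (gE_analytic X).differentiableAt.hasDerivAt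
  have hpos := gE_pos X
  have h2 : HasDerivAt (fun X => gE X + Real.log (gE X)) (deriv gE X + deriv gE X / gE X) X :=
    h1.add (h1.log hpos.ne')
  have h3 : (fun X => gE X + Real.log (gE X)) = fun X => X := funext gE_add_log
  rw [h3] at h2
  have h4 : deriv gE X + deriv gE X / gE X = 1 := h2.unique (hasDerivAt_id X)
  have h5 : deriv gE X = gE X / (1 + gE X) := by
    field_simp at h4 ⊢
    linarith
  rwa [h5] at h1

/-- the value at `w u` of a polynomial -/
noncomputable def ev {k : ℕ} (A b : Fin k → ℝ) (Q : MvPolynomial (Fin k) ℝ) (u : ℝ) : ℝ :=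
  MvPolynomial.eval (fun i => gE (A i + b i * u)) Q

/-- the product of the `1 + X i` -/
noncomputable def PiP (k : ℕ) : MvPolynomial (Fin k) ℝ := ∏ i, (1 + MvPolynomial.X i)

variable {k : ℕ} {A b : Fin k → ℝ}

theorem ev_PiP (u : ℝ) : ev A b (PiP k) u = ∏ i, (1 + gE (A i + b i * u)) := by
  simp [ev, PiP, map_prod]

theorem ev_PiP_pos (u : ℝ) : 0 < ev A b (PiP k) u := by
  rw [ev_PiP]
  exact Finset.prod_pos fun i _ => by have := gE_pos (A i + b i * u); linarith

theorem PiP_ne : PiP k ≠ 0 := by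
  intro h
  have := ev_PiP_pos (A := (0 : Fin k → ℝ)) (b := 0) 0
  rw [h] at this
  simp [ev] at this

theorem ev_mul (Q R : MvPolynomial (Fin k) ℝ) (u : ℝ) : ev A b (Q * R) u = ev A b Q u * ev A b R u := by
  simp [ev]

theorem ev_add (Q R : MvPolynomial (Fin k) ℝ) (u : ℝ) : ev A b (Q + R) u = ev A b Q u + ev A b R u := by
  simp [ev]

theorem ev_sub (Q R : MvPolynomial (Fin k) ℝ) (u : ℝ) : ev A b (Q - R) u = ev A b Q u - ev A b R u := by
  simp [ev]

theorem ev_C (a : ℝ) (u : ℝ) : ev A b (MvPolynomial.C a) u = a := by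
  simp [ev]

theorem ev_deriv (Q : MvPolynomial (Fin k) ℝ) : ∃ Q₁ : MvPolynomial (Fin k) ℝ, ∀ u,
    HasDerivAt (ev A b Q) (ev A b Q₁ u / ev A b (PiP k) u) u := by
  induction Q using MvPolynomial.induction_on with
  | C a =>
    refine ⟨0, fun u => ?_⟩
    have h1 : ev A b (MvPolynomial.C a) = fun _ => a := funext fun u => ev_C a u
    rw [h1]
    have h2 : ev A b 0 u = 0 := by simp [ev]
    rw [h2, zero_div]
    exact hasDerivAt_const u a
  | add p q hp hq =>
    obtain ⟨p₁, h₁⟩ := hp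
    obtain ⟨q₁, h₂⟩ := hq
    refine ⟨p₁ + q₁, fun u => ?_⟩
    have h1 : ev A b (p + q) = fun u => ev A b p u + ev A b q u := funext fun u => ev_add p q u
    rw [h1, ev_add, add_div]
    exact (h₁ u).add (h₂ u)
  | mul_X p i hp =>
    obtain ⟨p₁, h₁⟩ := hp
    refine ⟨p₁ * MvPolynomial.X i + p * (MvPolynomial.C (b i) * MvPolynomial.X i *
      ∏ j ∈ Finset.univ.erase i, (1 + MvPolynomial.X j)), fun u => ?_⟩
    have h1 : ev A b (p * MvPolynomial.X i) = fun u => ev A b p u * gE (A i + b i * u) :=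
      funext fun u => by simp [ev]
    have h2 : HasDerivAt (fun u => gE (A i + b i * u))
        (gE (A i + b i * u) / (1 + gE (A i + b i * u)) * b i) u := by
      have h3 : HasDerivAt (fun u => A i + b i * u) (b i) u := by
        simpa using ((hasDerivAt_id u).const_mul (b i)).const_add (A i)
      exact HasDerivAt.comp (h₂ := gE) (h := fun u => A i + b i * u) u (gE_hasDeriv (A i + b i * u)) h3
    have h3 : ev A b (p₁ * MvPolynomial.X i + p * (MvPolynomial.C (b i) * MvPolynomial.X i *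
        ∏ j ∈ Finset.univ.erase i, (1 + MvPolynomial.X j))) u =
        ev A b p₁ u * gE (A i + b i * u) + ev A b p u * (b i * gE (A i + b i * u) *
          ∏ j ∈ Finset.univ.erase i, (1 + gE (A j + b j * u))) := by
      simp [ev, map_prod]
    have h4 : ev A b (PiP k) u = (1 + gE (A i + b i * u)) *
        ∏ j ∈ Finset.univ.erase i, (1 + gE (A j + b j * u)) := by
      rw [ev_PiP, Finset.mul_prod_erase Finset.univ (fun j => 1 + gE (A j + b j * u))
        (Finset.mem_univ i)]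
    rw [h1]
    refine ((h₁ u).fun_mul h2).congr_deriv ?_
    rw [h3, h4]
    have h6 : 0 < 1 + gE (A i + b i * u) := by have := gE_pos (A i + b i * u); linarith
    have h7 : 0 < ∏ j ∈ Finset.univ.erase i, (1 + gE (A j + b j * u)) :=
      Finset.prod_pos fun j _ => by have := gE_pos (A j + b j * u); linarith
    generalize (∏ j ∈ Finset.univ.erase i, (1 + gE (A j + b j * u))) = Z at h7 ⊢
    generalize gE (A i + b i * u) = W at h6 ⊢
    field_simp

theorem ev_lower (hb : ∀ i, 0 < b i) (hinj : Function.Injective (fun i => (A i, b i)))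
    {Q : MvPolynomial (Fin k) ℝ} (hQ : Q ≠ 0) : ∃ K : ℕ, ∀ᶠ u in atTop, 1 ≤ u ^ K * |ev A b Q u| := by
  have hQ' : MvPolynomial.map (algebraMap ℝ ℂ) Q ≠ 0 := by
    intro h
    apply hQ
    exact MvPolynomial.map_injective _ (algebraMap ℝ ℂ).injective (by rw [h, map_zero])
  obtain ⟨C, hC, K, hK⟩ := pair_lower k A b hb hinj _ hQ'
  refine ⟨K + 1, ?_⟩
  filter_upwards [hK, eventually_ge_atTop (1 : ℝ), eventually_ge_atTop (1 / C)] with u hu hu1 huC
  have h1 : MvPolynomial.eval (fun i => ((gE (A i + b i * u) : ℝ) : ℂ))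
      (MvPolynomial.map (algebraMap ℝ ℂ) Q) = ((ev A b Q u : ℝ) : ℂ) := by
    rw [MvPolynomial.eval_map, ev]
    have h2 := MvPolynomial.eval₂_comp_left (algebraMap ℝ ℂ) (RingHom.id ℝ)
      (fun i => gE (A i + b i * u)) Q
    rw [RingHom.comp_id] at h2
    exact h2.symm
  rw [h1, Complex.norm_real, Real.norm_eq_abs] at hu
  have hu0 : 0 < u := by linarith
  have h3 : C ≤ u ^ K * |ev A b Q u| := by
    rw [div_le_iff₀ (by positivity)] at hu
    linarith
  have h4 : 1 ≤ u * C := by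
    rw [div_le_iff₀ hC] at huC
    exact huC
  calc (1 : ℝ) ≤ u * C := h4
    _ ≤ u * (u ^ K * |ev A b Q u|) := by gcongr
    _ = _ := by rw [pow_succ]; ring

theorem ev_upper (Q : MvPolynomial (Fin k) ℝ) : ∃ K : ℕ, ∀ᶠ u in atTop, |ev A b Q u| ≤ u ^ K := by
  induction Q using MvPolynomial.induction_on with
  | C a =>
    refine ⟨1, ?_⟩
    filter_upwards [eventually_ge_atTop |a|] with u hu
    rw [ev_C, pow_one]
    exact hu
  | add p q hp hq =>
    obtain ⟨K₁, h₁⟩ := hp
    obtain ⟨K₂, h₂⟩ := hq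
    refine ⟨K₁ + K₂ + 1, ?_⟩
    filter_upwards [h₁, h₂, eventually_ge_atTop (2 : ℝ)] with u hu₁ hu₂ hu
    have h1 : (1 : ℝ) ≤ u := by linarith
    have h3 : u ^ K₁ ≤ u ^ (K₁ + K₂) := pow_le_pow_right₀ h1 (by omega)
    have h4 : u ^ K₂ ≤ u ^ (K₁ + K₂) := pow_le_pow_right₀ h1 (by omega)
    rw [ev_add]
    calc |ev A b p u + ev A b q u| ≤ |ev A b p u| + |ev A b q u| := abs_add_le _ _
      _ ≤ 2 * u ^ (K₁ + K₂) := by linarith
      _ ≤ u * u ^ (K₁ + K₂) := by gcongr
      _ = _ := by rw [pow_succ]; ring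
  | mul_X p i hp =>
    obtain ⟨K₁, h₁⟩ := hp
    refine ⟨K₁ + 2, ?_⟩
    have hmono := gE_strictMono.monotone
    filter_upwards [h₁, eventually_ge_atTop (1 : ℝ), eventually_ge_atTop (1 + |A i| + |b i|)] with
      u hu₁ hu hu2
    have h2 : A i + b i * u ≤ u ^ 2 := by
      have h3 : b i * u ≤ |b i| * u := mul_le_mul_of_nonneg_right (le_abs_self _) (by linarith)
      have h4 : A i ≤ |A i| * u := by
        have := le_abs_self (A i)
        have := abs_nonneg (A i)
        nlinarith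
      nlinarith
    have h5 : gE (A i + b i * u) ≤ u ^ 2 := by
      have h6 : (1 : ℝ) ≤ u ^ 2 := one_le_pow₀ hu
      exact (hmono h2).trans (gE_bounds h6).2.1
    have h7 : ev A b (p * MvPolynomial.X i) u = ev A b p u * gE (A i + b i * u) := by
      simp [ev]
    rw [h7, abs_mul, abs_of_pos (gE_pos _), pow_add]
    have h8 := (gE_pos (A i + b i * u)).le
    have h9 := abs_nonneg (ev A b p u)
    gcongr

/-- the class of the functions that are eventually `exp (e u) Q (w u) / R (w u)` -/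
def TT (A b : Fin k → ℝ) (h : ℝ → ℝ) : Prop :=
  ∃ (e : ℝ) (Q R : MvPolynomial (Fin k) ℝ), R ≠ 0 ∧
    ∀ᶠ u in atTop, h u = Real.exp (e * u) * (ev A b Q u / ev A b R u)

/-- size of a member of the class -/
private lemma TT_up (hb : ∀ i, 0 < b i) (hinj : Function.Injective (fun i => (A i, b i))) (e : ℝ)
    (Q : MvPolynomial (Fin k) ℝ) {R : MvPolynomial (Fin k) ℝ} (hR : R ≠ 0) :
    ∃ K : ℕ, ∀ᶠ u in atTop, |Real.exp (e * u) * (ev A b Q u / ev A b R u)| ≤ u ^ K * Real.exp (e * u) := by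
  obtain ⟨K₁, h₁⟩ := ev_upper (A := A) (b := b) Q
  obtain ⟨K₂, h₂⟩ := ev_lower hb hinj hR
  refine ⟨K₁ + K₂, ?_⟩
  filter_upwards [h₁, h₂, eventually_gt_atTop (0 : ℝ)] with u hu₁ hu₂ hu
  have hR0 : 0 < |ev A b R u| := by
    by_contra hcon
    have h3 : |ev A b R u| = 0 := le_antisymm (not_lt.1 hcon) (abs_nonneg _)
    rw [h3, mul_zero] at hu₂
    linarith
  rw [abs_mul, abs_of_pos (Real.exp_pos _), abs_div, mul_comm]
  refine mul_le_mul_of_nonneg_right ?_ (Real.exp_pos _).le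
  rw [div_le_iff₀ hR0, pow_add]
  calc |ev A b Q u| ≤ u ^ K₁ := hu₁
    _ ≤ u ^ K₁ * (u ^ K₂ * |ev A b R u|) := le_mul_of_one_le_right (by positivity) hu₂
    _ = _ := by ring

private lemma TT_low (hb : ∀ i, 0 < b i) (hinj : Function.Injective (fun i => (A i, b i))) (e : ℝ)
    {Q : MvPolynomial (Fin k) ℝ} (hQ : Q ≠ 0) {R : MvPolynomial (Fin k) ℝ} (hR : R ≠ 0) :
    ∃ K : ℕ, ∀ᶠ u in atTop, Real.exp (e * u) ≤ u ^ K * |Real.exp (e * u) * (ev A b Q u / ev A b R u)| := by
  obtain ⟨K₁, h₁⟩ := ev_upper (A := A) (b := b) R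
  obtain ⟨K₂, h₂⟩ := ev_lower hb hinj hQ
  obtain ⟨K₃, h₃⟩ := ev_lower hb hinj hR
  refine ⟨K₁ + K₂, ?_⟩
  filter_upwards [h₁, h₂, h₃, eventually_gt_atTop (0 : ℝ)] with u hu₁ hu₂ hu₃ hu
  have hR0 : 0 < |ev A b R u| := by
    by_contra hcon
    have h3 : |ev A b R u| = 0 := le_antisymm (not_lt.1 hcon) (abs_nonneg _)
    rw [h3, mul_zero] at hu₃
    linarith
  rw [abs_mul, abs_of_pos (Real.exp_pos _), abs_div]
  have h4 : 1 ≤ u ^ (K₁ + K₂) * (|ev A b Q u| / |ev A b R u|) := by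
    rw [mul_div_assoc', le_div_iff₀ hR0, one_mul, pow_add]
    calc |ev A b R u| ≤ u ^ K₁ := hu₁
      _ ≤ u ^ K₁ * (u ^ K₂ * |ev A b Q u|) := le_mul_of_one_le_right (by positivity) hu₂
      _ = _ := by ring
  calc Real.exp (e * u) = Real.exp (e * u) * 1 := (mul_one _).symm
    _ ≤ Real.exp (e * u) * (u ^ (K₁ + K₂) * (|ev A b Q u| / |ev A b R u|)) := by gcongr
    _ = _ := by ring

private lemma TT_der (hb : ∀ i, 0 < b i) (hinj : Function.Injective (fun i => (A i, b i))) (e : ℝ)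
    (Q : MvPolynomial (Fin k) ℝ) {R : MvPolynomial (Fin k) ℝ} (hR : R ≠ 0) {h : ℝ → ℝ}
    (hh : ∀ᶠ u in atTop, h u = Real.exp (e * u) * (ev A b Q u / ev A b R u)) :
    ∃ Q₁ R₁ : MvPolynomial (Fin k) ℝ, R₁ ≠ 0 ∧ ∀ᶠ u in atTop,
      HasDerivAt h (Real.exp (e * u) * (ev A b Q₁ u / ev A b R₁ u)) u := by
  obtain ⟨Q', hQ'⟩ := ev_deriv (A := A) (b := b) Q
  obtain ⟨R', hR'⟩ := ev_deriv (A := A) (b := b) R
  obtain ⟨K₃, h₃⟩ := ev_lower hb hinj hR
  refine ⟨MvPolynomial.C e * Q * R * PiP k + Q' * R - Q * R', R * R * PiP k,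
    mul_ne_zero (mul_ne_zero hR hR) PiP_ne, ?_⟩
  obtain ⟨U, hU⟩ := eventually_atTop.1 hh
  filter_upwards [h₃, eventually_gt_atTop U] with u hu₃ huU
  have hR0 : ev A b R u ≠ 0 := by
    intro h0
    rw [h0, abs_zero, mul_zero] at hu₃
    linarith
  have hPi := (ev_PiP_pos (A := A) (b := b) u).ne'
  have h1 : h =ᶠ[𝓝 u] fun u => Real.exp (e * u) * (ev A b Q u / ev A b R u) := by
    filter_upwards [lt_mem_nhds huU] with v hv
    exact hU v hv.le
  have h2 : HasDerivAt (fun u => Real.exp (e * u)) (Real.exp (e * u) * e) u := by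
    have h3 : HasDerivAt (fun u => e * u) e u := by
      simpa using (hasDerivAt_id u).const_mul e
    exact h3.exp
  have h4 := h2.fun_mul ((hQ' u).fun_div (hR' u) hR0)
  refine HasDerivAt.congr_of_eventuallyEq (h4.congr_deriv ?_) h1
  simp only [ev_mul, ev_add, ev_sub, ev_C]
  field_simp
  ring

theorem TT_tame (hb : ∀ i, 0 < b i) (hinj : Function.Injective (fun i => (A i, b i))) :
    Tame (TT A b) where
  div := by
    rintro f g ⟨e, Q, R, hR, hf⟩ ⟨e', Q', R', hR', hg⟩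
    by_cases hQ' : Q' = 0
    · refine ⟨0, 0, 1, one_ne_zero, ?_⟩
      filter_upwards [hg] with u hu
      have h1 : g u = 0 := by rw [hu, hQ']; simp [ev]
      have h2 : ev A b 0 u = 0 := by simp [ev]
      rw [h1, h2]
      simp
    · refine ⟨e - e', Q * R', R * Q', mul_ne_zero hR hQ', ?_⟩
      filter_upwards [hf, hg] with u hu hu'
      rw [hu, hu', ev_mul, ev_mul, sub_mul, Real.exp_sub]
      rw [mul_div_mul_comm, div_div_div_eq]
  der := by
    rintro f ⟨e, Q, R, hR, hf⟩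
    obtain ⟨Q₁, R₁, hR₁, hd⟩ := TT_der hb hinj e Q hR hf
    refine ⟨e, Q₁, R₁, hR₁, ?_⟩
    filter_upwards [hd] with u hu
    exact hu.deriv
  diff := by
    rintro f ⟨e, Q, R, hR, hf⟩
    obtain ⟨Q₁, R₁, hR₁, hd⟩ := TT_der hb hinj e Q hR hf
    filter_upwards [hd] with u hu
    exact hu.differentiableAt
  alt := by
    rintro f ⟨e, Q, R, hR, hf⟩
    by_cases hQ : Q = 0
    · left
      filter_upwards [hf] with u hu
      rw [hu, hQ]
      simp [ev]
    · right
      obtain ⟨K₁, h₁⟩ := TT_up hb hinj e Q hR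
      obtain ⟨K₂, h₂⟩ := TT_low hb hinj e hQ hR
      refine ⟨?_, ?_⟩
      · filter_upwards [hf, h₂] with u hu hu₂
        rw [hu]
        intro h0
        rw [h0, abs_zero, mul_zero] at hu₂
        exact absurd hu₂ (not_le.2 (Real.exp_pos _))
      · obtain ⟨U₀, hU₀⟩ := eventually_atTop.1 ((hf.and h₁).and h₂)
        obtain ⟨M, hM⟩ : ∃ M : ℕ, Real.exp |e| ≤ 2 ^ M := pow_unbounded_of_one_lt _ one_lt_two |>.imp
          fun _ h => h.le
        refine ⟨2 * (K₁ + K₂) + M, ?_⟩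
        filter_upwards [eventually_ge_atTop U₀, eventually_ge_atTop (2 : ℝ)] with U hU hU2 u hu v hv
        have hU1 : (1 : ℝ) ≤ U := by linarith
        have hU0 : (0 : ℝ) ≤ U := by linarith
        have hfu := (hU₀ u (hU.trans hu.1)).1
        have hfv := (hU₀ v (hU.trans hv.1))
        have e1 : |f u| ≤ u ^ K₁ * Real.exp (e * u) := by rw [hfu.1]; exact hfu.2
        have e2 : Real.exp (e * v) ≤ v ^ K₂ * |f v| := by rw [hfv.1.1]; exact hfv.2
        have e3 : Real.exp (e * u) ≤ 2 ^ M * Real.exp (e * v) := by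
          calc Real.exp (e * u) = Real.exp (e * (u - v)) * Real.exp (e * v) := by
                rw [← Real.exp_add]; congr 1; ring
            _ ≤ Real.exp |e| * Real.exp (e * v) := by
                refine mul_le_mul_of_nonneg_right (Real.exp_le_exp.2 ?_) (Real.exp_pos _).le
                calc e * (u - v) ≤ |e * (u - v)| := le_abs_self _
                  _ = |e| * |u - v| := abs_mul _ _
                  _ ≤ |e| * 1 := by
                      refine mul_le_mul_of_nonneg_left ?_ (abs_nonneg _)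
                      rw [abs_le]
                      exact ⟨by linarith [hu.1, hv.2], by linarith [hu.2, hv.1]⟩
                  _ = |e| := mul_one _
            _ ≤ _ := mul_le_mul_of_nonneg_right hM (Real.exp_pos _).le
        have hsq : ∀ t ∈ Icc U (U + 1), ∀ K : ℕ, t ^ K ≤ U ^ (2 * K) := by
          intro t ht K
          rw [pow_mul]
          refine pow_le_pow_left₀ (hU0.trans ht.1) ?_ K
          nlinarith [ht.2]
        have hfv0 : 0 ≤ |f v| := abs_nonneg _
        have hu0 : 0 ≤ u := hU0.trans hu.1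
        calc |f u| ≤ u ^ K₁ * Real.exp (e * u) := e1
          _ ≤ u ^ K₁ * (2 ^ M * Real.exp (e * v)) := by gcongr
          _ ≤ u ^ K₁ * (2 ^ M * (v ^ K₂ * |f v|)) := by gcongr
          _ ≤ U ^ (2 * K₁) * (U ^ M * (U ^ (2 * K₂) * |f v|)) := by
              have := hsq u hu K₁
              have := hsq v hv K₂
              have : (0 : ℝ) ≤ v := hU0.trans hv.1
              gcongr
          _ = _ := by rw [mul_add, pow_add, pow_add]; ring
  low := by
    rintro f ⟨e, Q, R, hR, hf⟩ hne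
    obtain ⟨Q₁, R₁, hR₁, hd⟩ := TT_der hb hinj e Q hR hf
    have hQ₁ : Q₁ ≠ 0 := by
      intro h0
      apply hne
      filter_upwards [hd] with u hu
      rw [hu.deriv, h0]
      simp [ev]
    obtain ⟨K₁, h₁⟩ := TT_up hb hinj e Q hR
    obtain ⟨K₂, h₂⟩ := TT_low hb hinj e hQ₁ hR₁
    refine ⟨K₁ + K₂, ?_⟩
    filter_upwards [hf, hd, h₁, h₂, eventually_ge_atTop (0 : ℝ)] with u hu hdu hu₁ hu₂ hu0
    rw [hdu.deriv]
    calc |f u| ≤ u ^ K₁ * Real.exp (e * u) := by rw [hu]; exact hu₁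
      _ ≤ u ^ K₁ * (u ^ K₂ * |Real.exp (e * u) * (ev A b Q₁ u / ev A b R₁ u)|) := by gcongr
      _ = _ := by rw [pow_add]; ring

end Pool.Agent.Lib.MP_ec260d_ntH
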