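import Mathlib
import Pool.Agent.Lib.MP_ec260d_nt.WMainL
import Pool.Agent.Lib.MP_ec260d_ntH.TameW

/-!
# The monomials in `x` and the `S i x = (a i x ^ (b i) / B) / lam (a i x ^ (b i) / D₀)`

As functions of `u = log x` they are tame and linearly independent; sublevel sets of their complex
linear combinations are covered by few short intervals.
-/

open Set Filter Topology

namespace Pool.Agent.Lib.MP_ec260d_ntH

open Pool.Agent.Lib.MP_ec260d_nt

variable {k : ℕ}

/-- the values `x, S 1 x, .., S k x` -/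
noncomputable def VV (a b : Fin k → ℝ) (B D₀ : ℝ) (x : ℝ) (o : Option (Fin k)) : ℝ :=
  o.elim x (fun i => (a i * x ^ (b i) / B) / lam (a i * x ^ (b i) / D₀))

/-- exponents at most `D` in each variable -/
abbrev Ix (k D : ℕ) : Type := Option (Fin k) → Fin (D + 1)

/-- the exponent as a finitely supported function -/
noncomputable def phi {k D : ℕ} (α : Ix k D) : Option (Fin k) →₀ ℕ :=
  Finsupp.equivFunOnFinite.symm (fun o => (α o : ℕ))

theorem phi_apply {D : ℕ} (α : Ix k D) (o : Option (Fin k)) : phi α o = (α o : ℕ) := by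
  simp [phi]

theorem phi_inj {D : ℕ} : Function.Injective (phi : Ix k D → _) := by
  intro α β h
  funext o
  have := DFunLike.congr_fun h o
  rw [phi_apply, phi_apply] at this
  exact Fin.ext this

/-- evaluation of a polynomial as a sum over the index type -/
theorem eval_eq_sum {D : ℕ} (P : MvPolynomial (Option (Fin k)) ℂ) (hP : P.totalDegree ≤ D)
    (v : Option (Fin k) → ℂ) :
    MvPolynomial.eval v P = ∑ α : Ix k D, P.coeff (phi α) * ∏ o, v o ^ (α o : ℕ) := by
  classical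
  rw [MvPolynomial.eval_eq']
  have h1 : ∑ α : Ix k D, P.coeff (phi α) * ∏ o, v o ^ (α o : ℕ) =
      ∑ d ∈ Finset.univ.image (phi : Ix k D → _), P.coeff d * ∏ o, v o ^ d o := by
    rw [Finset.sum_image (fun α _ β _ h => phi_inj h)]
    refine Finset.sum_congr rfl fun α _ => ?_
    simp only [phi_apply]
  rw [h1]
  refine Finset.sum_subset ?_ ?_
  · intro d hd
    rw [Finset.mem_image]
    have hle : ∀ o, d o ≤ D := fun o =>
      (MvPolynomial.monomial_le_degreeOf o hd).trans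
        ((MvPolynomial.degreeOf_le_totalDegree P o).trans hP)
    refine ⟨fun o => ⟨d o, Nat.lt_succ_of_le (hle o)⟩, Finset.mem_univ _, ?_⟩
    ext o
    rw [phi_apply]
  · intro d _ hd
    rw [MvPolynomial.notMem_support_iff.1 hd, zero_mul]

theorem VV_pos {a b : Fin k → ℝ} {B D₀ : ℝ} (ha : ∀ i, 0 < a i) (hB : 0 < B) (hD : 0 < D₀) {x : ℝ}
    (hx : 0 < x) (o : Option (Fin k)) : 0 < VV a b B D₀ x o := by
  cases o with
  | none => exact hx
  | some i =>
    have h1 : 0 < a i * x ^ (b i) := mul_pos (ha i) (Real.rpow_pos_of_pos hx _)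
    exact div_pos (div_pos h1 hB) (lam_pos (div_pos h1 hD))

theorem VV_exp {a b : Fin k → ℝ} {B D₀ : ℝ} (ha : ∀ i, 0 < a i) (hD : 0 < D₀) (u : ℝ) (i : Fin k) :
    VV a b B D₀ (Real.exp u) (some i) =
      Real.exp (b i * u) * ((a i / B) / gE (Real.log (a i / D₀) + b i * u)) := by
  have h1 : (Real.exp u) ^ (b i) = Real.exp (b i * u) := by
    rw [← Real.exp_mul, mul_comm]
  have h2 : gE (Real.log (a i / D₀) + b i * u) = lam (a i * Real.exp (b i * u) / D₀) := by
    unfold gE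
    rw [Real.exp_add, Real.exp_log (div_pos (ha i) hD)]
    congr 1
    ring
  unfold VV
  simp only [Option.elim]
  rw [h1, h2]
  ring

/-- the monomial `α` as a function of `u = log x` -/
noncomputable def hh (a b : Fin k → ℝ) (B D₀ : ℝ) {D : ℕ} (α : Ix k D) (u : ℝ) : ℝ :=
  ∏ o, VV a b B D₀ (Real.exp u) o ^ (α o : ℕ)

theorem hh_pos {a b : Fin k → ℝ} {B D₀ : ℝ} (ha : ∀ i, 0 < a i) (hB : 0 < B) (hD : 0 < D₀) {D : ℕ}
    (α : Ix k D) (u : ℝ) : 0 < hh a b B D₀ α u :=
  Finset.prod_pos fun o _ => pow_pos (VV_pos ha hB hD (Real.exp_pos u) o) _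

theorem hh_TT {a b : Fin k → ℝ} {B D₀ : ℝ} (ha : ∀ i, 0 < a i) (hD : 0 < D₀) {D : ℕ}
    (α : Ix k D) : TT (fun i => Real.log (a i / D₀)) b (hh a b B D₀ α) := by
  refine ⟨(α none : ℕ) + ∑ i, (α (some i) : ℕ) * b i,
    MvPolynomial.C (∏ i, (a i / B) ^ (α (some i) : ℕ)), ∏ i, MvPolynomial.X i ^ (α (some i) : ℕ), ?_,
    Eventually.of_forall fun u => ?_⟩
  · exact Finset.prod_ne_zero_iff.2 fun i _ => pow_ne_zero _ (MvPolynomial.X_ne_zero i)
  · rw [ev_C]
    have h1 : ev (fun i => Real.log (a i / D₀)) b (∏ i, MvPolynomial.X i ^ (α (some i) : ℕ)) u =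
        ∏ i, gE (Real.log (a i / D₀) + b i * u) ^ (α (some i) : ℕ) := by
      simp [ev, map_prod]
    rw [h1]
    unfold hh
    rw [Fintype.prod_option]
    have h2 : VV a b B D₀ (Real.exp u) none = Real.exp u := rfl
    rw [h2]
    simp only [VV_exp ha hD]
    rw [add_mul, Real.exp_add, Finset.sum_mul, Real.exp_sum, ← Finset.prod_div_distrib, mul_assoc,
      ← Finset.prod_mul_distrib]
    congr 1
    · rw [← Real.exp_nat_mul]
    · refine Finset.prod_congr rfl fun i _ => ?_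
      rw [mul_pow, div_pow, ← Real.exp_nat_mul, mul_assoc]

theorem hh_LI {a b : Fin k → ℝ} {B D₀ : ℝ} (ha : ∀ i, 0 < a i) (hb : ∀ i, 0 < b i) (hB : 0 < B)
    (hD : 0 < D₀) (hinj : Function.Injective (fun i => (a i, b i))) {D n : ℕ} (E : Fin n ≃ Ix k D) :
    LI (fun j => hh a b B D₀ (E j)) := by
  classical
  intro c hc
  by_contra hne
  obtain ⟨j₀, hj₀⟩ := Function.ne_iff.1 hne
  set P : MvPolynomial (Option (Fin k)) ℂ := ∑ j, MvPolynomial.monomial (phi (E j)) ((c j : ℝ) : ℂ) with hPdef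
  have hP : P ≠ 0 := by
    intro h0
    have h1 : P.coeff (phi (E j₀)) = ((c j₀ : ℝ) : ℂ) := by
      rw [hPdef, MvPolynomial.coeff_sum, Finset.sum_eq_single j₀]
      · rw [MvPolynomial.coeff_monomial, if_pos rfl]
      · intro j _ hj
        rw [MvPolynomial.coeff_monomial, if_neg]
        intro h2
        exact hj (E.injective (phi_inj h2))
      · intro h2; exact absurd (Finset.mem_univ _) h2
    rw [h0, MvPolynomial.coeff_zero] at h1
    exact hj₀ (by exact_mod_cast h1.symm)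
  obtain ⟨K, _, hK⟩ := w_mainL k a b ha hb hinj B D₀ hB hD P hP
  obtain ⟨x₀, hx₀, hmain⟩ := hK 0
  obtain ⟨u, hu, huge⟩ := (hc.and (eventually_ge_atTop (Real.log x₀))).exists
  have hx : x₀ ≤ Real.exp u := (Real.log_le_iff_le_exp (by linarith)).1 huge
  refine hmain (Real.exp u) hx (fun i => VV a b B D₀ (Real.exp u) (some i)) (fun i => ?_) ?_
  · unfold VV
    simp
  · have h1 : (fun o : Option (Fin k) => o.elim ((Real.exp u : ℝ) : ℂ)
        (fun i => ((VV a b B D₀ (Real.exp u) (some i) : ℝ) : ℂ))) =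
        fun o => ((VV a b B D₀ (Real.exp u) o : ℝ) : ℂ) := by
      funext o
      cases o <;> rfl
    rw [h1, hPdef, map_sum]
    have h2 : ∀ j, MvPolynomial.eval (fun o => ((VV a b B D₀ (Real.exp u) o : ℝ) : ℂ))
        (MvPolynomial.monomial (phi (E j)) ((c j : ℝ) : ℂ)) =
        ((c j * hh a b B D₀ (E j) u : ℝ) : ℂ) := by
      intro j
      rw [MvPolynomial.eval_monomial, Finsupp.prod_fintype _ _ (fun o => pow_zero _)]
      simp only [phi_apply]
      unfold hh
      push_cast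
      rfl
    simp only [h2]
    rw [← Complex.ofReal_sum, hu, Complex.ofReal_zero]

theorem coverC (a b : Fin k → ℝ) (B D₀ : ℝ) (ha : ∀ i, 0 < a i) (hb : ∀ i, 0 < b i) (hB : 0 < B)
    (hD : 0 < D₀) (hinj : Function.Injective (fun i => (a i, b i))) (D : ℕ) :
    ∃ (m K : ℕ) (γ : ℝ), 0 < γ ∧ γ ≤ 1 ∧ ∀ᶠ U in atTop, ∀ η : ℝ, 0 < η → η ≤ 1 / 2 →
      ∀ c : Ix k D → ℂ, Cov m (U ^ K * (2 * η) ^ γ)
        {u | u ∈ Icc U (U + 1) ∧ ‖∑ α, c α * ((hh a b B D₀ α u : ℝ) : ℂ)‖ <
          η * ∑ α, ‖c α‖ * hh a b B D₀ α u} := by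
  have hAinj : Function.Injective (fun i => (Real.log (a i / D₀), b i)) := by
    intro i j hij
    have h1 : Real.log (a i / D₀) = Real.log (a j / D₀) := (Prod.ext_iff.1 hij).1
    have h2 : b i = b j := (Prod.ext_iff.1 hij).2
    have h3 : a i / D₀ = a j / D₀ :=
      Real.log_injOn_pos (Set.mem_Ioi.2 (div_pos (ha i) hD)) (Set.mem_Ioi.2 (div_pos (ha j) hD)) h1
    have h4 : a i = a j := by
      field_simp at h3
      exact h3
    exact hinj (Prod.ext h4 h2)
  set E : Fin (Fintype.card (Ix k D)) ≃ Ix k D := (Fintype.equivFin _).symm with hE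
  obtain ⟨m, K, γ, hγ, hγ1, hcov⟩ := cover (TT_tame hb hAinj) _ (fun j => hh a b B D₀ (E j))
    (fun j => hh_TT ha hD (E j)) (hh_LI ha hb hB hD hinj E)
  refine ⟨m + m, K, γ, hγ, hγ1, ?_⟩
  filter_upwards [hcov] with U hU η hη hη1 c
  have h1 := (hU (2 * η) (by positivity) (by linarith) (fun j => (c (E j)).re)).union
    (hU (2 * η) (by positivity) (by linarith) (fun j => (c (E j)).im))
  refine h1.mono le_rfl le_rfl ?_
  rintro u ⟨hu, hlt⟩
  have e1 : ∀ f : Ix k D → ℝ, ∑ j, f (E j) = ∑ α, f α := fun f => Equiv.sum_comp E f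
  have habs : ∀ α : Ix k D, |hh a b B D₀ α u| = hh a b B D₀ α u := fun α =>
    abs_of_pos (hh_pos ha hB hD α u)
  have hre : (∑ α, c α * ((hh a b B D₀ α u : ℝ) : ℂ)).re = ∑ α, (c α).re * hh a b B D₀ α u := by
    rw [Complex.re_sum]
    exact Finset.sum_congr rfl fun α _ => by simp
  have him : (∑ α, c α * ((hh a b B D₀ α u : ℝ) : ℂ)).im = ∑ α, (c α).im * hh a b B D₀ α u := by
    rw [Complex.im_sum]
    exact Finset.sum_congr rfl fun α _ => by simp
  have hsplit : ∑ α, ‖c α‖ * hh a b B D₀ α u ≤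
      ∑ α, |(c α).re| * hh a b B D₀ α u + ∑ α, |(c α).im| * hh a b B D₀ α u := by
    rw [← Finset.sum_add_distrib]
    refine Finset.sum_le_sum fun α _ => ?_
    rw [← add_mul]
    exact mul_le_mul_of_nonneg_right (Complex.norm_le_abs_re_add_abs_im _) (hh_pos ha hB hD α u).le
  rcases le_total (∑ α, |(c α).im| * hh a b B D₀ α u) (∑ α, |(c α).re| * hh a b B D₀ α u) with h2 | h2
  · left
    refine ⟨hu, ?_⟩
    rw [e1 (fun α => (c α).re * hh a b B D₀ α u), e1 (fun α => |(c α).re| * |hh a b B D₀ α u|)]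
    simp only [habs]
    rw [← hre]
    calc |(∑ α, c α * ((hh a b B D₀ α u : ℝ) : ℂ)).re| ≤ ‖∑ α, c α * ((hh a b B D₀ α u : ℝ) : ℂ)‖ :=
          Complex.abs_re_le_norm _
      _ < η * ∑ α, ‖c α‖ * hh a b B D₀ α u := hlt
      _ ≤ η * (2 * ∑ α, |(c α).re| * hh a b B D₀ α u) :=
          mul_le_mul_of_nonneg_left (by linarith) hη.le
      _ = _ := by ring
  · right
    refine ⟨hu, ?_⟩
    rw [e1 (fun α => (c α).im * hh a b B D₀ α u), e1 (fun α => |(c α).im| * |hh a b B D₀ α u|)]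
    simp only [habs]
    rw [← him]
    calc |(∑ α, c α * ((hh a b B D₀ α u : ℝ) : ℂ)).im| ≤ ‖∑ α, c α * ((hh a b B D₀ α u : ℝ) : ℂ)‖ :=
          Complex.abs_im_le_norm _
      _ < η * ∑ α, ‖c α‖ * hh a b B D₀ α u := hlt
      _ ≤ η * (2 * ∑ α, |(c α).im| * hh a b B D₀ α u) :=
          mul_le_mul_of_nonneg_left (by linarith) hη.le
      _ = _ := by ring

end Pool.Agent.Lib.MP_ec260d_ntH
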