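import Mathlib
import Pool.Agent.Lib.MP_ec260d_ntH.Cov

/-!
# Counting the integers whose logarithm lies in few short intervals
-/

open Set Filter Topology

namespace Pool.Agent.Lib.MP_ec260d_ntH

theorem count_interval (F : Finset ℕ) (p l V : ℝ) (hl : 0 ≤ l)
    (h : ∀ n ∈ F, 1 ≤ n ∧ p ≤ Real.log n ∧ Real.log n ≤ p + l ∧ Real.log n ≤ V) :
    (F.card : ℝ) ≤ 1 + Real.exp V * l := by
  rcases F.eq_empty_or_nonempty with hF | hF
  · rw [hF]
    have := Real.exp_pos V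
    simp only [Finset.card_empty, Nat.cast_zero]
    positivity
  · set n₁ := F.min' hF with hn₁
    set n₂ := F.max' hF with hn₂
    have hm₁ := F.min'_mem hF
    have hm₂ := F.max'_mem hF
    rw [← hn₁] at hm₁
    rw [← hn₂] at hm₂
    have hle : n₁ ≤ n₂ := F.min'_le _ hm₂
    have hsub : F ⊆ Finset.Icc n₁ n₂ := fun n hn =>
      Finset.mem_Icc.2 ⟨F.min'_le n hn, F.le_max' n hn⟩
    have hcard : F.card ≤ n₂ + 1 - n₁ := by
      have := Finset.card_le_card hsub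
      rwa [Nat.card_Icc] at this
    have hcard' : (F.card : ℝ) ≤ (n₂ : ℝ) + 1 - n₁ := by
      have h1 : (F.card : ℝ) ≤ ((n₂ + 1 - n₁ : ℕ) : ℝ) := by exact_mod_cast hcard
      rwa [Nat.cast_sub (by omega), Nat.cast_add, Nat.cast_one] at h1
    obtain ⟨h11, h12, h13, h14⟩ := h n₁ hm₁
    obtain ⟨h21, h22, h23, h24⟩ := h n₂ hm₂
    have hn1 : (0 : ℝ) < n₁ := by exact_mod_cast (by omega : 0 < n₁)
    have hn2 : (0 : ℝ) < n₂ := by exact_mod_cast (by omega : 0 < n₂)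
    have hlog : 1 - (n₁ : ℝ) / n₂ ≤ Real.log n₂ - Real.log n₁ := by
      rw [← Real.log_div hn2.ne' hn1.ne']
      have := Real.one_sub_inv_le_log_of_pos (div_pos hn2 hn1)
      rwa [inv_div] at this
    have h3 : (n₂ : ℝ) - n₁ ≤ n₂ * l := by
      have h4 : 1 - (n₁ : ℝ) / n₂ ≤ l := by linarith
      calc (n₂ : ℝ) - n₁ = n₂ * (1 - (n₁ : ℝ) / n₂) := by field_simp
        _ ≤ n₂ * l := by gcongr
    have h5 : (n₂ : ℝ) ≤ Real.exp V := by
      rw [← Real.exp_log hn2]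
      exact Real.exp_le_exp.2 h24
    have h6 : (n₂ : ℝ) * l ≤ Real.exp V * l := by gcongr
    linarith

theorem count_cov (F : Finset ℕ) {m : ℕ} {l V : ℝ} (hl : 0 ≤ l) {E : Set ℝ} (hE : Cov m l E)
    (h : ∀ n ∈ F, 1 ≤ n ∧ Real.log n ∈ E ∧ Real.log n ≤ V) :
    (F.card : ℝ) ≤ m * (1 + Real.exp V * l) := by
  classical
  obtain ⟨p, hp⟩ := hE
  have hsub : F ⊆ Finset.univ.biUnion
      (fun i : Fin m => F.filter (fun n : ℕ => p i ≤ Real.log n ∧ Real.log n ≤ p i + l)) := by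
    intro n hn
    obtain ⟨i, h1, h2⟩ := hp _ (h n hn).2.1
    exact Finset.mem_biUnion.2 ⟨i, Finset.mem_univ _, Finset.mem_filter.2 ⟨hn, h1, h2⟩⟩
  have h1 : F.card ≤ ∑ i : Fin m, (F.filter (fun n : ℕ => p i ≤ Real.log n ∧ Real.log n ≤ p i + l)).card :=
    (Finset.card_le_card hsub).trans Finset.card_biUnion_le
  have h2 : (F.card : ℝ) ≤
      ∑ i : Fin m, ((F.filter (fun n : ℕ => p i ≤ Real.log n ∧ Real.log n ≤ p i + l)).card : ℝ) := by
    exact_mod_cast h1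
  refine h2.trans ?_
  have h3 : ∀ i ∈ (Finset.univ : Finset (Fin m)),
      ((F.filter (fun n : ℕ => p i ≤ Real.log n ∧ Real.log n ≤ p i + l)).card : ℝ) ≤
      1 + Real.exp V * l := fun i _ =>
    count_interval _ (p i) l V hl fun n hn => by
      rw [Finset.mem_filter] at hn
      exact ⟨(h n hn.1).1, hn.2.1, hn.2.2, (h n hn.1).2.2⟩
  calc _ ≤ ∑ _i : Fin m, (1 + Real.exp V * l) := Finset.sum_le_sum h3
    _ = _ := by rw [Finset.sum_const, Finset.card_univ, Fintype.card_fin, nsmul_eq_mul]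

theorem count_blocks (F : Finset ℕ) (J N : ℕ) (hN : 1 ≤ N) (m K : ℕ) (ρ : ℝ) (hρ : 0 ≤ ρ)
    (E : ℕ → Set ℝ) (hE : ∀ j, J ≤ j → Cov m ((j : ℝ) ^ K * ρ) (E j))
    (h : ∀ n ∈ F, 1 ≤ n ∧ n ≤ N ∧ (J : ℝ) ≤ Real.log n ∧ Real.log n ∈ E ⌊Real.log n⌋₊) :
    (F.card : ℝ) ≤ (Real.log N + 1) * (m * (1 + Real.exp 1 * N * (Real.log N ^ K * ρ))) := by
  classical
  have hN0 : (0 : ℝ) < N := by exact_mod_cast (by omega : 0 < N)
  have hlogN : 0 ≤ Real.log N := Real.log_nonneg (by exact_mod_cast hN)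
  set R := Finset.range (⌊Real.log N⌋₊ + 1) with hR
  have hmaps : ∀ n ∈ F, ⌊Real.log n⌋₊ ∈ R := by
    intro n hn
    rw [hR, Finset.mem_range]
    refine Nat.lt_succ_of_le (Nat.floor_mono ?_)
    obtain ⟨h1, h2, _⟩ := h n hn
    exact Real.log_le_log (by exact_mod_cast (by omega : 0 < n)) (by exact_mod_cast h2)
  have hcard := Finset.card_eq_sum_card_fiberwise hmaps
  have hcard' : (F.card : ℝ) = ∑ j ∈ R, ((F.filter (fun n : ℕ => ⌊Real.log n⌋₊ = j)).card : ℝ) := by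
    rw [hcard]
    push_cast
    rfl
  rw [hcard']
  have hM0 : 0 ≤ (m : ℝ) * (1 + Real.exp 1 * N * (Real.log N ^ K * ρ)) := by positivity
  have hfib : ∀ j ∈ R, ((F.filter (fun n : ℕ => ⌊Real.log n⌋₊ = j)).card : ℝ) ≤
      m * (1 + Real.exp 1 * N * (Real.log N ^ K * ρ)) := by
    intro j hj
    rw [hR, Finset.mem_range] at hj
    have hjN : (j : ℝ) ≤ Real.log N := by
      have h1 : j ≤ ⌊Real.log N⌋₊ := by omega
      exact (Nat.cast_le.2 h1).trans (Nat.floor_le hlogN)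
    rcases (F.filter (fun n : ℕ => ⌊Real.log n⌋₊ = j)).eq_empty_or_nonempty with h0 | ⟨n₀, hn₀⟩
    · rw [h0]
      simpa using hM0
    · rw [Finset.mem_filter] at hn₀
      have hJj : J ≤ j := by
        rw [← hn₀.2]
        exact Nat.le_floor (h n₀ hn₀.1).2.2.1
      have hl : 0 ≤ (j : ℝ) ^ K * ρ := by positivity
      have h1 := count_cov (F.filter (fun n : ℕ => ⌊Real.log n⌋₊ = j)) (V := j + 1) hl (hE j hJj)
        (fun n hn => by
          rw [Finset.mem_filter] at hn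
          obtain ⟨h2, h3, h4, h5⟩ := h n hn.1
          rw [hn.2] at h5
          refine ⟨h2, h5, ?_⟩
          have := Nat.lt_floor_add_one (Real.log n)
          rw [hn.2] at this
          exact this.le)
      refine h1.trans ?_
      have h2 : Real.exp (j + 1) ≤ Real.exp 1 * N := by
        rw [add_comm, Real.exp_add]
        have h3 : Real.exp j ≤ N := by
          calc Real.exp j ≤ Real.exp (Real.log N) := Real.exp_le_exp.2 hjN
            _ = N := Real.exp_log hN0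
        have := Real.exp_pos 1
        gcongr
      gcongr
  calc _ ≤ ∑ _j ∈ R, (m : ℝ) * (1 + Real.exp 1 * N * (Real.log N ^ K * ρ)) := Finset.sum_le_sum hfib
    _ = (⌊Real.log N⌋₊ + 1 : ℕ) * ((m : ℝ) * (1 + Real.exp 1 * N * (Real.log N ^ K * ρ))) := by
        rw [Finset.sum_const, hR, Finset.card_range, nsmul_eq_mul]
    _ ≤ _ := by
        refine mul_le_mul_of_nonneg_right ?_ hM0
        push_cast
        linarith [Nat.floor_le hlogN]

end Pool.Agent.Lib.MP_ec260d_ntH
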