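import Mathlib
import Pool.Agent.Lib.MP_ec260d_nt.OrdRealL
import Pool.Agent.Lib.MP_ec260d_ntH.Mono

/-!
# Replacing the `s i` by the `S i x`

If `|N (s i) - a i x ^ (b i)| ≤ x ^ (b i - θ)` then `|s i - S i x| ≤ x ^ (-β) S i x` for large `x`,
so that every monomial of bounded degree changes by a factor `1 + O(x ^ (-β))`.
-/

open Set Filter Topology

namespace Pool.Agent.Lib.MP_ec260d_ntH

open Pool.Agent.Lib.MP_ec260d_nt

variable {k : ℕ}

theorem pert_exists (a b : Fin k → ℝ) (ha : ∀ i, 0 < a i) (hb : ∀ i, 0 < b i) (θ : ℝ) (hθ : 0 < θ) :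
    ∃ B D₀ β x₀ : ℝ, 0 < B ∧ 0 < D₀ ∧ 0 < β ∧ 1 ≤ x₀ ∧ ∀ x : ℝ, x₀ ≤ x → ∀ s : Fin k → ℝ,
      (∀ i, |(zeroCount (s i) : ℝ) - a i * x ^ (b i)| ≤ x ^ (b i - θ)) →
      ∀ i, |s i - VV a b B D₀ x (some i)| ≤ x ^ (-β) * VV a b B D₀ x (some i) := by
  obtain ⟨B, D₀, hB, hD, hord⟩ := ord_realL
  have hβ : ∃ β : ℝ, 0 < β ∧ 2 * β ≤ θ ∧ ∀ i, 2 * β ≤ b i / 2 := by
    have h1 : ∀ᶠ β in 𝓝[>] (0 : ℝ), β ≤ θ / 2 :=
      mem_nhdsWithin_of_mem_nhds (Iic_mem_nhds (by positivity))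
    have h2 : ∀ᶠ β in 𝓝[>] (0 : ℝ), ∀ i, β ≤ b i / 4 :=
      eventually_all.2 fun i => mem_nhdsWithin_of_mem_nhds (Iic_mem_nhds (by have := hb i; positivity))
    have h3 : ∀ᶠ β in 𝓝[>] (0 : ℝ), 0 < β := eventually_mem_nhdsWithin
    obtain ⟨β, ⟨h4, h5⟩, h6⟩ := ((h1.and h2).and h3).exists
    exact ⟨β, h6, by linarith, fun i => by have := h5 i; linarith⟩
  obtain ⟨β, hβ0, hβθ, hβb⟩ := hβ
  -- one index
  have hone : ∀ i, ∀ᶠ x : ℝ in atTop, ∀ s : ℝ, |(zeroCount s : ℝ) - a i * x ^ (b i)| ≤ x ^ (b i - θ) →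
      |s - VV a b B D₀ x (some i)| ≤ x ^ (-β) * VV a b B D₀ x (some i) := by
    intro i
    obtain ⟨C, y₀, hC, hs⟩ := hord (a i) (ha i)
    have hai := ha i
    have hbi := hb i
    have t1 : Tendsto (fun x : ℝ => x ^ (b i)) atTop atTop := tendsto_rpow_atTop hbi
    have t2 : Tendsto (fun x : ℝ => x ^ (-θ)) atTop (𝓝 0) := tendsto_rpow_neg_atTop hθ
    have t3 : Tendsto (fun x : ℝ => a i * x ^ (b i) / D₀) atTop atTop :=
      (t1.const_mul_atTop hai).atTop_div_const hD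
    have t4 : Tendsto (fun x : ℝ => 2 * C * (x ^ (-β) * (Real.log (a i / D₀) + b i * Real.log x)))
        atTop (𝓝 (2 * C * 0)) := by
      refine Tendsto.const_mul _ ?_
      have h1 : Tendsto (fun x : ℝ => x ^ (-β) * Real.log (a i / D₀)) atTop (𝓝 0) := by
        simpa using (tendsto_rpow_neg_atTop hβ0).mul_const (Real.log (a i / D₀))
      have h2 : Tendsto (fun x : ℝ => b i * (x ^ (-β) * Real.log x)) atTop (𝓝 (b i * 0)) := by
        refine Tendsto.const_mul _ ?_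
        have h3 := (isLittleO_log_rpow_atTop hβ0).tendsto_div_nhds_zero
        refine h3.congr' ?_
        filter_upwards [eventually_gt_atTop (0 : ℝ)] with x hx
        rw [Real.rpow_neg hx.le]
        field_simp
      have h4 := h1.add h2
      simp only [mul_zero, add_zero] at h4
      refine h4.congr fun x => ?_
      ring
    rw [mul_zero] at t4
    filter_upwards [t1.eventually_ge_atTop y₀, t2.eventually_le_const (show (0 : ℝ) < a i / 2 by positivity),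
      t3.eventually_ge_atTop (Real.exp 1), eventually_ge_atTop (1 : ℝ),
      t4.eventually_le_const (show (0 : ℝ) < a i / B by positivity)] with x hx1 hx2 hx3 hx4 hx5 s hsx
    have hx0 : 0 < x := by linarith
    have hpos : 0 < x ^ (b i) := Real.rpow_pos_of_pos hx0 _
    have h1 := hs (x ^ (b i)) hx1 (x ^ (-θ)) (Real.rpow_pos_of_pos hx0 _).le hx2 s (by
      rw [← Real.rpow_add hx0]
      rw [show -θ + b i = b i - θ by ring]
      exact hsx)
    have h2 : (x ^ (b i)) ^ ((1 : ℝ) / 2) = x ^ (b i / 2) := by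
      rw [← Real.rpow_mul hx0.le]; congr 1; ring
    rw [h2] at h1
    -- lower bound for `S`
    set L := lam (a i * x ^ (b i) / D₀) with hL
    have hL1 := lam_le_log hx3
    have hlog : Real.log (a i * x ^ (b i) / D₀) = Real.log (a i / D₀) + b i * Real.log x := by
      rw [show a i * x ^ (b i) / D₀ = (a i / D₀) * x ^ (b i) by ring,
        Real.log_mul (by positivity) hpos.ne', Real.log_rpow hx0]
    rw [hlog] at hL1
    have hL0 : 0 < L := by linarith [hL1.1]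
    have hVV : VV a b B D₀ x (some i) = (a i * x ^ (b i) / B) / L := rfl
    rw [hVV]
    refine h1.trans ?_
    -- `C (x^(-θ) x^b + x^(b/2)) ≤ x^(-β) (a x^b / B)/L`
    have h3 : x ^ (-θ) ≤ x ^ (-(2 * β)) := Real.rpow_le_rpow_of_exponent_le hx4 (by linarith)
    have h4 : x ^ (b i / 2) ≤ x ^ (-(2 * β)) * x ^ (b i) := by
      rw [← Real.rpow_add hx0]
      exact Real.rpow_le_rpow_of_exponent_le hx4 (by have := hβb i; linarith)
    have h5 : C * (x ^ (-θ) * x ^ (b i) + x ^ (b i / 2)) ≤ 2 * C * x ^ (-(2 * β)) * x ^ (b i) := by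
      calc _ ≤ C * (x ^ (-(2 * β)) * x ^ (b i) + x ^ (-(2 * β)) * x ^ (b i)) := by gcongr
        _ = _ := by ring
    refine h5.trans ?_
    have h6 : x ^ (-(2 * β)) = x ^ (-β) * x ^ (-β) := by
      rw [← Real.rpow_add hx0]; congr 1; ring
    have hxβ : 0 < x ^ (-β) := Real.rpow_pos_of_pos hx0 _
    have h7 : 2 * C * (x ^ (-β) * L) ≤ a i / B := by
      refine le_trans ?_ hx5
      have := hL1.2
      gcongr
    rw [h6]
    rw [mul_div_assoc', le_div_iff₀ hL0]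
    calc 2 * C * (x ^ (-β) * x ^ (-β)) * x ^ (b i) * L =
          x ^ (-β) * x ^ (b i) * (2 * C * (x ^ (-β) * L)) := by ring
      _ ≤ x ^ (-β) * x ^ (b i) * (a i / B) := by gcongr
      _ = x ^ (-β) * (a i * x ^ (b i) / B) := by ring
  obtain ⟨x₀, hx₀⟩ := eventually_atTop.1 (eventually_all.2 hone)
  refine ⟨B, D₀, β, max x₀ 1, hB, hD, hβ0, le_max_right _ _, fun x hx s hs i => ?_⟩
  exact hx₀ x ((le_max_left _ _).trans hx) i (s i) (hs i)

/-- closeness: `|x - X| ≤ (2 ^ p - 1) ε X` -/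
private def Cl (ε : ℝ) (p : ℕ) (x X : ℝ) : Prop := 0 ≤ X ∧ |x - X| ≤ (2 ^ p - 1) * ε * X

private lemma Cl.mul {ε : ℝ} (hε0 : 0 ≤ ε) (hε : ε ≤ 1) {p q : ℕ} {x X y Y : ℝ} (h : Cl ε p x X)
    (h' : Cl ε q y Y) : Cl ε (p + q) (x * y) (X * Y) := by
  obtain ⟨hX, hx⟩ := h
  obtain ⟨hY, hy⟩ := h'
  refine ⟨mul_nonneg hX hY, ?_⟩
  have hp : (1 : ℝ) ≤ 2 ^ p := one_le_pow₀ one_le_two
  have hq : (1 : ℝ) ≤ 2 ^ q := one_le_pow₀ one_le_two
  have h1 : |x| ≤ X + (2 ^ p - 1) * ε * X := by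
    have := abs_sub_abs_le_abs_sub x X
    rw [abs_of_nonneg hX] at this
    linarith
  have h2 : x * y - X * Y = x * (y - Y) + (x - X) * Y := by ring
  rw [h2]
  calc |x * (y - Y) + (x - X) * Y| ≤ |x * (y - Y)| + |(x - X) * Y| := abs_add_le _ _
    _ = |x| * |y - Y| + |x - X| * Y := by rw [abs_mul, abs_mul, abs_of_nonneg hY]
    _ ≤ (X + (2 ^ p - 1) * ε * X) * ((2 ^ q - 1) * ε * Y) + (2 ^ p - 1) * ε * X * Y := by
        have h3 : 0 ≤ (2 ^ p - 1) * ε * X := mul_nonneg (mul_nonneg (by linarith) hε0) hX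
        have h4 : 0 ≤ (2 ^ q - 1) * ε * Y := mul_nonneg (mul_nonneg (by linarith) hε0) hY
        gcongr
    _ = ε * (X * Y) * ((2 ^ q - 1) + (2 ^ p - 1) * (2 ^ q - 1) * ε + (2 ^ p - 1)) := by ring
    _ ≤ ε * (X * Y) * ((2 ^ q - 1) + (2 ^ p - 1) * (2 ^ q - 1) * 1 + (2 ^ p - 1)) := by
        have h5 : 0 ≤ ((2 : ℝ) ^ p - 1) * (2 ^ q - 1) := mul_nonneg (by linarith) (by linarith)
        gcongr
    _ = _ := by rw [pow_add]; ring

private lemma Cl.pow {ε : ℝ} (hε0 : 0 ≤ ε) (hε : ε ≤ 1) {x X : ℝ} (h : Cl ε 1 x X) (n : ℕ) :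
    Cl ε n (x ^ n) (X ^ n) := by
  induction n with
  | zero => exact ⟨by simp, by simp⟩
  | succ n ih =>
    rw [pow_succ, pow_succ]
    exact Cl.mul hε0 hε ih h

private lemma Cl.prod {ε : ℝ} (hε0 : 0 ≤ ε) (hε : ε ≤ 1) {ι : Type} (F : Finset ι) (p : ι → ℕ)
    (x X : ι → ℝ) (h : ∀ i, Cl ε (p i) (x i) (X i)) : Cl ε (∑ i ∈ F, p i) (∏ i ∈ F, x i) (∏ i ∈ F, X i) := by
  classical
  induction F using Finset.induction_on with
  | empty => exact ⟨by simp, by simp⟩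
  | insert i F hi ih =>
    rw [Finset.sum_insert hi, Finset.prod_insert hi, Finset.prod_insert hi]
    exact Cl.mul hε0 hε (h i) ih

/-- the values `x, s 1, .., s k` -/
def vv (x : ℝ) (s : Fin k → ℝ) (o : Option (Fin k)) : ℝ := o.elim x s

theorem mono_pert {a b : Fin k → ℝ} {B D₀ : ℝ} (ha : ∀ i, 0 < a i) (hB : 0 < B) (hD : 0 < D₀) {D : ℕ}
    {x ε : ℝ} (hx : 0 < x) (hε0 : 0 ≤ ε) (hε : ε ≤ 1) {s : Fin k → ℝ}
    (hs : ∀ i, |s i - VV a b B D₀ x (some i)| ≤ ε * VV a b B D₀ x (some i)) (α : Ix k D) :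
    |∏ o, vv x s o ^ (α o : ℕ) - hh a b B D₀ α (Real.log x)| ≤
      2 ^ ((k + 1) * D) * ε * hh a b B D₀ α (Real.log x) := by
  have h1 : ∀ o, Cl ε 1 (vv x s o) (VV a b B D₀ x o) := by
    intro o
    refine ⟨(VV_pos ha hB hD hx o).le, ?_⟩
    cases o with
    | none =>
      have h2 : vv x s none - VV a b B D₀ x none = 0 := by
        simp [vv, VV]
      rw [h2, abs_zero]
      have : 0 ≤ VV a b B D₀ x none := (VV_pos ha hB hD hx none).le
      have : ((2 : ℝ) ^ 1 - 1) = 1 := by norm_num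
      rw [this]
      positivity
    | some i =>
      have h2 : ((2 : ℝ) ^ 1 - 1) * ε = ε := by norm_num
      rw [h2]
      exact hs i
  have h2 := Cl.prod hε0 hε Finset.univ (fun o => (α o : ℕ)) (fun o => vv x s o ^ (α o : ℕ))
    (fun o => VV a b B D₀ x o ^ (α o : ℕ)) (fun o => Cl.pow hε0 hε (h1 o) _)
  have h3 : hh a b B D₀ α (Real.log x) = ∏ o, VV a b B D₀ x o ^ (α o : ℕ) := by
    unfold hh
    rw [Real.exp_log hx]
  rw [h3]
  refine h2.2.trans ?_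
  refine mul_le_mul_of_nonneg_right (mul_le_mul_of_nonneg_right ?_ hε0) h2.1
  have h4 : ∑ o : Option (Fin k), (α o : ℕ) ≤ (k + 1) * D := by
    have h5 : ∑ o : Option (Fin k), (α o : ℕ) ≤ ∑ _o : Option (Fin k), D :=
      Finset.sum_le_sum fun o _ => Nat.le_of_lt_succ (α o).2
    refine h5.trans ?_
    rw [Finset.sum_const, Finset.card_univ, Fintype.card_option, Fintype.card_fin, smul_eq_mul]
  have h6 : (2 : ℝ) ^ (∑ o : Option (Fin k), (α o : ℕ)) ≤ 2 ^ ((k + 1) * D) :=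
    pow_le_pow_right₀ one_le_two h4
  linarith

/-- If at `x` no cancellation occurs for the `S i x`, none occurs for the `s i`. -/
theorem good_pert {a b : Fin k → ℝ} {B D₀ : ℝ} (ha : ∀ i, 0 < a i) (hB : 0 < B) (hD : 0 < D₀) {D : ℕ}
    {x ε η : ℝ} (hx : 0 < x) (hε0 : 0 ≤ ε) (hη : 0 < η) (hη1 : η ≤ 1)
    (hεη : 2 ^ ((k + 1) * D) * ε ≤ η / 2) {s : Fin k → ℝ}
    (hs : ∀ i, |s i - VV a b B D₀ x (some i)| ≤ ε * VV a b B D₀ x (some i))
    (P : MvPolynomial (Option (Fin k)) ℂ) (hP : P.totalDegree ≤ D)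
    (hgood : η * ∑ α : Ix k D, ‖P.coeff (phi α)‖ * hh a b B D₀ α (Real.log x) ≤
      ‖∑ α : Ix k D, P.coeff (phi α) * ((hh a b B D₀ α (Real.log x) : ℝ) : ℂ)‖) (α : Ix k D) :
    0 < ∏ o, vv x s o ^ (α o : ℕ) ∧ ‖P.coeff (phi α)‖ * ∏ o, vv x s o ^ (α o : ℕ) ≤
      4 / η * ‖MvPolynomial.eval (fun o => ((vv x s o : ℝ) : ℂ)) P‖ := by
  have h2p : (1 : ℝ) ≤ 2 ^ ((k + 1) * D) := one_le_pow₀ one_le_two
  have hε : ε ≤ 1 := by nlinarith
  have hmp := mono_pert ha hB hD (D := D) hx hε0 hε hs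
  set h : Ix k D → ℝ := fun α => hh a b B D₀ α (Real.log x) with hh'
  have hpos : ∀ α, 0 < h α := fun α => hh_pos ha hB hD α _
  set z : Ix k D → ℝ := fun α => ∏ o, vv x s o ^ (α o : ℕ) with hz
  have hzh : ∀ α, |z α - h α| ≤ η / 2 * h α := fun α =>
    (hmp α).trans (mul_le_mul_of_nonneg_right hεη (hpos α).le)
  set S := ∑ α : Ix k D, ‖P.coeff (phi α)‖ * h α with hS
  have hev : MvPolynomial.eval (fun o => ((vv x s o : ℝ) : ℂ)) P =
      ∑ α : Ix k D, P.coeff (phi α) * ((z α : ℝ) : ℂ) := by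
    rw [eval_eq_sum P hP]
    refine Finset.sum_congr rfl fun α _ => ?_
    rw [hz]
    push_cast
    rfl
  have hdiff : ‖∑ α : Ix k D, P.coeff (phi α) * ((h α : ℝ) : ℂ)‖ ≤
      ‖∑ α : Ix k D, P.coeff (phi α) * ((z α : ℝ) : ℂ)‖ + η / 2 * S := by
    have h1 : ∑ α : Ix k D, P.coeff (phi α) * ((h α : ℝ) : ℂ) =
        ∑ α : Ix k D, P.coeff (phi α) * ((z α : ℝ) : ℂ) -
          ∑ α : Ix k D, P.coeff (phi α) * (((z α - h α : ℝ)) : ℂ) := by
      rw [← Finset.sum_sub_distrib]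
      refine Finset.sum_congr rfl fun α _ => ?_
      push_cast
      ring
    rw [h1]
    refine (norm_sub_le _ _).trans (add_le_add le_rfl ?_)
    refine (norm_sum_le _ _).trans ?_
    rw [hS, Finset.mul_sum]
    refine Finset.sum_le_sum fun α _ => ?_
    rw [norm_mul, Complex.norm_real, Real.norm_eq_abs]
    calc ‖P.coeff (phi α)‖ * |z α - h α| ≤ ‖P.coeff (phi α)‖ * (η / 2 * h α) :=
          mul_le_mul_of_nonneg_left (hzh α) (norm_nonneg _)
      _ = _ := by ring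
  have hE : η / 2 * S ≤ ‖MvPolynomial.eval (fun o => ((vv x s o : ℝ) : ℂ)) P‖ := by
    rw [hev]
    linarith
  have hzα := abs_le.1 (hzh α)
  have hz2 : z α ≤ 2 * h α := by
    have := hzα.2
    have := hpos α
    nlinarith
  have hz0 : 0 < z α := by
    have := hzα.1
    have := hpos α
    nlinarith
  refine ⟨hz0, ?_⟩
  have hSα : ‖P.coeff (phi α)‖ * h α ≤ S :=
    Finset.single_le_sum (f := fun α => ‖P.coeff (phi α)‖ * h α)
      (fun α _ => mul_nonneg (norm_nonneg _) (hpos α).le) (Finset.mem_univ α)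
  calc ‖P.coeff (phi α)‖ * z α ≤ ‖P.coeff (phi α)‖ * (2 * h α) :=
        mul_le_mul_of_nonneg_left hz2 (norm_nonneg _)
    _ = 2 * (‖P.coeff (phi α)‖ * h α) := by ring
    _ ≤ 2 * S := by linarith
    _ = 4 / η * (η / 2 * S) := by field_simp; ring
    _ ≤ _ := mul_le_mul_of_nonneg_left hE (by positivity)

end Pool.Agent.Lib.MP_ec260d_ntH
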