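import Mathlib
import Pool.Agent.Lib.MP_ec260d_ntH.Pert
import Pool.Agent.Lib.MP_ec260d_ntH.Count

/-!
# Uniform version: all polynomials of bounded degree with coefficients in a small set
-/

open Set Filter Topology

namespace Pool.Agent.Lib.MP_ec260d_ntH

open Pool.Agent.Lib.MP_ec260d_nt

/-- the numerical inequality of the union bound -/
private lemma Unif_num (M m K : ℕ) (hM : 1 ≤ M) (γ δ : ℝ) (hγ : 0 < γ) (hγ1 : γ ≤ 1) (hδ : 0 < δ)
    (hδ1 : δ ≤ 1) : ∀ᶠ N : ℝ in atTop, ∀ A : ℝ, 0 ≤ A → A ≤ N ^ (γ * δ / (4 * (M + 1))) →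
      (N ^ ((1 : ℝ) / 2) + 2) + (A + 1) ^ M * ((Real.log N + 1) *
        (m * (1 + Real.exp 1 * N * (Real.log N ^ K * (2 * (4 * N ^ (-δ))) ^ γ)))) ≤
      N ^ (1 - γ * δ / (4 * (M + 1))) := by
  set t := γ * δ with ht
  have ht0 : 0 < t := mul_pos hγ hδ
  have ht1 : t ≤ 1 := by
    calc t = γ * δ := rfl
      _ ≤ 1 * 1 := mul_le_mul hγ1 hδ1 hδ.le zero_le_one
      _ = 1 := one_mul 1
  have hM' : (1 : ℝ) ≤ M := by exact_mod_cast hM
  set c := t / (4 * (M + 1)) with hc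
  have hc0 : 0 < c := by positivity
  have hc8 : c ≤ t / 8 := by
    rw [hc]
    exact div_le_div_of_nonneg_left ht0.le (by norm_num) (by linarith)
  have hcM : c * M ≤ t / 4 := by
    rw [hc, div_mul_eq_mul_div, div_le_div_iff₀ (by positivity) (by norm_num)]
    nlinarith
  set C₁ : ℝ := 2 ^ M * 2 * m * (1 + 8 * Real.exp 1) with hC₁
  have hC₁0 : 0 ≤ C₁ := by
    have := Real.exp_pos 1
    positivity
  have h1 := (isLittleO_log_rpow_rpow_atTop ((K + 1 : ℕ) : ℝ) (show 0 < t / 2 by positivity)).def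
    (c := 1 / (2 * (C₁ + 1))) (by positivity)
  have h2 : ∀ᶠ N : ℝ in atTop, 4 ≤ N ^ ((1 : ℝ) / 4) :=
    (tendsto_rpow_atTop (by norm_num)).eventually_ge_atTop 4
  filter_upwards [h1, h2, eventually_ge_atTop (Real.exp 1), eventually_ge_atTop (1 : ℝ)] with
    N hN1 hN2 hNe hN A hA0 hA
  have hN0 : 0 < N := by linarith
  have hlog1 : 1 ≤ Real.log N := (Real.le_log_iff_exp_le hN0).2 hNe
  have hlog0 : 0 ≤ Real.log N := by linarith
  have hp : ∀ e : ℝ, 0 < N ^ e := fun e => Real.rpow_pos_of_pos hN0 e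
  rw [Real.rpow_natCast, Real.norm_of_nonneg (pow_nonneg hlog0 _), Real.norm_of_nonneg (hp _).le] at hN1
  -- first part
  have hA1 : N ^ ((1 : ℝ) / 2) + 2 ≤ 1 / 2 * N ^ (1 - c) := by
    have e1 : N ^ ((3 : ℝ) / 4) ≤ N ^ (1 - c) :=
      Real.rpow_le_rpow_of_exponent_le hN (by linarith)
    have e2 : N ^ ((3 : ℝ) / 4) = N ^ ((1 : ℝ) / 2) * N ^ ((1 : ℝ) / 4) := by
      rw [← Real.rpow_add hN0]; norm_num
    have e3 : 4 ≤ N ^ ((1 : ℝ) / 2) := by
      refine hN2.trans (Real.rpow_le_rpow_of_exponent_le hN (by norm_num))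
    have e4 : N ^ ((1 : ℝ) / 2) * 4 ≤ N ^ ((1 : ℝ) / 2) * N ^ ((1 : ℝ) / 4) := by
      have := hp ((1 : ℝ) / 2)
      gcongr
    nlinarith
  -- second part
  have hB1 : (A + 1) ^ M ≤ 2 ^ M * N ^ (t / 4) := by
    have e1 : A + 1 ≤ 2 * N ^ c := by
      have : 1 ≤ N ^ c := Real.one_le_rpow hN hc0.le
      linarith
    calc (A + 1) ^ M ≤ (2 * N ^ c) ^ M := pow_le_pow_left₀ (by linarith) e1 M
      _ = 2 ^ M * N ^ (c * M) := by
          rw [mul_pow, ← Real.rpow_natCast (N ^ c) M, ← Real.rpow_mul hN0.le]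
      _ ≤ _ := by
          have := Real.rpow_le_rpow_of_exponent_le hN hcM
          gcongr
  have hB2 : (2 * (4 * N ^ (-δ))) ^ γ ≤ 8 * N ^ (-t) := by
    have e1 : 2 * (4 * N ^ (-δ)) = 8 * N ^ (-δ) := by ring
    rw [e1, Real.mul_rpow (by norm_num) (hp _).le, ← Real.rpow_mul hN0.le]
    have e2 : (8 : ℝ) ^ γ ≤ 8 := by
      calc (8 : ℝ) ^ γ ≤ 8 ^ (1 : ℝ) := Real.rpow_le_rpow_of_exponent_le (by norm_num) hγ1
        _ = 8 := Real.rpow_one 8
    have e3 : -δ * γ = -t := by rw [ht]; ring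
    rw [e3]
    have := hp (-t)
    gcongr
  have hB3 : 1 + Real.exp 1 * N * (Real.log N ^ K * (2 * (4 * N ^ (-δ))) ^ γ) ≤
      (1 + 8 * Real.exp 1) * (N ^ (1 - t) * Real.log N ^ K) := by
    have e1 : 1 ≤ N ^ (1 - t) * Real.log N ^ K := by
      have e2 : 1 ≤ N ^ (1 - t) := Real.one_le_rpow hN (by linarith)
      have e3 : 1 ≤ Real.log N ^ K := one_le_pow₀ hlog1
      nlinarith
    have e4 : N * N ^ (-t) = N ^ (1 - t) := by
      rw [sub_eq_add_neg, Real.rpow_add hN0, Real.rpow_one]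
    have e5 : Real.exp 1 * N * (Real.log N ^ K * (2 * (4 * N ^ (-δ))) ^ γ) ≤
        8 * Real.exp 1 * (N ^ (1 - t) * Real.log N ^ K) := by
      calc Real.exp 1 * N * (Real.log N ^ K * (2 * (4 * N ^ (-δ))) ^ γ)
          ≤ Real.exp 1 * N * (Real.log N ^ K * (8 * N ^ (-t))) := by
            have := Real.exp_pos 1
            gcongr
        _ = 8 * Real.exp 1 * (N * N ^ (-t) * Real.log N ^ K) := by ring
        _ = _ := by rw [e4]
    linarith
  have hB : (A + 1) ^ M * ((Real.log N + 1) *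
      (m * (1 + Real.exp 1 * N * (Real.log N ^ K * (2 * (4 * N ^ (-δ))) ^ γ)))) ≤
      1 / 2 * N ^ (1 - c) := by
    have e0 : 0 ≤ 1 + Real.exp 1 * N * (Real.log N ^ K * (2 * (4 * N ^ (-δ))) ^ γ) := by
      have := Real.exp_pos 1
      have := hp (-δ)
      positivity
    calc _ ≤ (2 ^ M * N ^ (t / 4)) * ((2 * Real.log N) *
          (m * ((1 + 8 * Real.exp 1) * (N ^ (1 - t) * Real.log N ^ K)))) := by
          have := hp (t / 4)
          have e6 : Real.log N + 1 ≤ 2 * Real.log N := by linarith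
          gcongr
      _ = C₁ * (N ^ (t / 4) * N ^ (1 - t)) * Real.log N ^ (K + 1) := by
          rw [hC₁, pow_succ]; ring
      _ ≤ C₁ * (N ^ (t / 4) * N ^ (1 - t)) * (1 / (2 * (C₁ + 1)) * N ^ (t / 2)) := by
          have := hp (t / 4)
          have := hp (1 - t)
          gcongr
      _ = (C₁ / (C₁ + 1)) * (1 / 2) * (N ^ (t / 4) * N ^ (1 - t) * N ^ (t / 2)) := by
          field_simp
      _ ≤ 1 * (1 / 2) * (N ^ (t / 4) * N ^ (1 - t) * N ^ (t / 2)) := by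
          have e7 : C₁ / (C₁ + 1) ≤ 1 := by
            rw [div_le_one (by positivity)]
            linarith
          have := hp (t / 4)
          have := hp (1 - t)
          have := hp (t / 2)
          gcongr
      _ = 1 / 2 * N ^ (t / 4 + (1 - t) + t / 2) := by
          rw [Real.rpow_add hN0, Real.rpow_add hN0]; ring
      _ ≤ _ := by
          have := Real.rpow_le_rpow_of_exponent_le hN (show t / 4 + (1 - t) + t / 2 ≤ 1 - c by linarith)
          gcongr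
  linarith

theorem unif (k D : ℕ) (a b : Fin k → ℝ) (ha : ∀ i, 0 < a i) (hb : ∀ i, 0 < b i)
    (hinj : Function.Injective (fun i => (a i, b i))) (θ κ : ℝ) (hθ : 0 < θ) (hκ : 0 < κ) :
    ∃ c C : ℝ, 0 < c ∧ ∀ N : ℕ, 1 ≤ N → ∀ A : Finset ℂ, (A.card : ℝ) ≤ (N : ℝ) ^ c →
      ∃ E : Finset ℕ, (E.card : ℝ) ≤ C * (N : ℝ) ^ (1 - c) ∧
        ∀ n : ℕ, 1 ≤ n → n ≤ N → n ∉ E →
          ∀ P : MvPolynomial (Option (Fin k)) ℂ, P ≠ 0 → P.totalDegree ≤ D →
            (∀ α ∈ P.support, P.coeff α ∈ A) → ∀ s : Fin k → ℝ,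
              (∀ i, |(zeroCount (s i) : ℝ) - a i * (n : ℝ) ^ (b i)| ≤ (n : ℝ) ^ (b i - θ)) →
              MvPolynomial.eval (fun o => o.elim (n : ℂ) (fun i => ((s i : ℝ) : ℂ))) P ≠ 0 ∧
              ∀ α : Option (Fin k) →₀ ℕ,
                ‖P.coeff α‖ * ((n : ℝ) ^ (α none) * ∏ i, |s i| ^ (α (some i))) ≤
                (N : ℝ) ^ κ *
                  ‖MvPolynomial.eval (fun o => o.elim (n : ℂ) (fun i => ((s i : ℝ) : ℂ))) P‖ := by
  classical
  obtain ⟨B, D₀, β, x₀, hB, hD, hβ, hx₀, hpert⟩ := pert_exists a b ha hb θ hθ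
  obtain ⟨m, K, γ, hγ, hγ1, hcov⟩ := coverC a b B D₀ ha hb hB hD hinj D
  obtain ⟨U₀, hU₀⟩ := eventually_atTop.1 hcov
  set δ := min (min κ (β / 4)) 1 with hδdef
  have hδ : 0 < δ := by
    rw [hδdef]
    exact lt_min (lt_min hκ (by positivity)) one_pos
  have hδκ : δ ≤ κ := (min_le_left _ _).trans (min_le_left _ _)
  have hδβ : δ ≤ β / 4 := (min_le_left _ _).trans (min_le_right _ _)
  have hδ1 : δ ≤ 1 := min_le_right _ _
  set M := Fintype.card (Ix k D) with hM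
  have hM1 : 1 ≤ M := Fintype.card_pos
  set c := γ * δ / (4 * (M + 1)) with hc
  have hc0 : 0 < c := by positivity
  have hc1 : c ≤ 1 := by
    rw [hc, div_le_one (by positivity)]
    have h1 : γ * δ ≤ 1 := by
      calc γ * δ ≤ 1 * 1 := mul_le_mul hγ1 hδ1 hδ.le zero_le_one
        _ = 1 := one_mul 1
    have h2 : (0 : ℝ) ≤ M := Nat.cast_nonneg _
    linarith
  set J : ℕ := ⌈max U₀ 1⌉₊ with hJ
  have hJU : ∀ j : ℕ, J ≤ j → U₀ ≤ j := fun j hj =>
    (le_max_left _ _).trans ((Nat.le_ceil _).trans (by exact_mod_cast hj))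
  -- the largeness conditions
  have hev : ∀ᶠ N : ℕ in atTop, (∀ A : ℝ, 0 ≤ A → A ≤ (N : ℝ) ^ c →
      ((N : ℝ) ^ ((1 : ℝ) / 2) + 2) + (A + 1) ^ M * ((Real.log N + 1) *
        (m * (1 + Real.exp 1 * N * (Real.log N ^ K * (2 * (4 * (N : ℝ) ^ (-δ))) ^ γ)))) ≤
      (N : ℝ) ^ (1 - c)) ∧ (N : ℝ) ^ (-δ) ≤ 1 / 8 ∧ 2 ^ ((k + 1) * D) * (N : ℝ) ^ (-δ) ≤ 1 ∧
      x₀ ≤ (N : ℝ) ^ ((1 : ℝ) / 2) ∧ (J : ℝ) ≤ Real.log N / 2 ∧ (1 : ℝ) ≤ N := by
    have hcast : Tendsto (fun N : ℕ => (N : ℝ)) atTop atTop := tendsto_natCast_atTop_atTop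
    have e1 := hcast.eventually (Unif_num M m K hM1 γ δ hγ hγ1 hδ hδ1)
    have t1 : Tendsto (fun N : ℝ => N ^ (-δ)) atTop (𝓝 0) := tendsto_rpow_neg_atTop hδ
    have e2 := hcast.eventually (t1.eventually_le_const (show (0 : ℝ) < 1 / 8 by norm_num))
    have t2 : Tendsto (fun N : ℝ => 2 ^ ((k + 1) * D) * N ^ (-δ)) atTop (𝓝 0) := by
      simpa using t1.const_mul ((2 : ℝ) ^ ((k + 1) * D))
    have e3 := hcast.eventually (t2.eventually_le_const (show (0 : ℝ) < 1 by norm_num))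
    have e4 := hcast.eventually
      ((tendsto_rpow_atTop (show (0 : ℝ) < 1 / 2 by norm_num)).eventually_ge_atTop x₀)
    have e5 := hcast.eventually (Real.tendsto_log_atTop.eventually_ge_atTop (2 * (J : ℝ)))
    have e6 := hcast.eventually (eventually_ge_atTop (1 : ℝ))
    filter_upwards [e1, e2, e3, e4, e5, e6] with N h1 h2 h3 h4 h5 h6
    exact ⟨h1, h2, h3, h4, by linarith, h6⟩
  obtain ⟨N₀, hN₀⟩ := eventually_atTop.1 hev
  refine ⟨c, (N₀ : ℝ) + 1, hc0, fun N hN A hA => ?_⟩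
  have hNpos : (0 : ℝ) < N := by exact_mod_cast (by omega : 0 < N)
  have hN1' : (1 : ℝ) ≤ N := by exact_mod_cast hN
  have hNc : 1 ≤ (N : ℝ) ^ (1 - c) := Real.one_le_rpow hN1' (by linarith)
  rcases lt_or_ge N N₀ with hlt | hge
  · refine ⟨Finset.range (N + 1), ?_, fun n _ h2 h3 => ?_⟩
    · rw [Finset.card_range]
      have h1 : ((N + 1 : ℕ) : ℝ) ≤ N₀ := by exact_mod_cast hlt
      have h2 : (0 : ℝ) ≤ N₀ := Nat.cast_nonneg _
      nlinarith
    · exact absurd (Finset.mem_range.2 (by omega)) h3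
  obtain ⟨hnum, hη8, hpw, hx₀N, hJN, -⟩ := hN₀ N hge
  set η : ℝ := 4 * (N : ℝ) ^ (-δ) with hη
  have hNδ : 0 < (N : ℝ) ^ (-δ) := Real.rpow_pos_of_pos hNpos _
  have hη0 : 0 < η := by positivity
  have hη12 : η ≤ 1 / 2 := by rw [hη]; linarith
  set Bad : (Ix k D → ℂ) → Finset ℕ := fun cc => (Finset.Icc 1 N).filter (fun n : ℕ =>
    (N : ℝ) ^ ((1 : ℝ) / 2) < n ∧ ‖∑ α, cc α * ((hh a b B D₀ α (Real.log n) : ℝ) : ℂ)‖ <
      η * ∑ α, ‖cc α‖ * hh a b B D₀ α (Real.log n)) with hBad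
  have hlogn : ∀ n : ℕ, (N : ℝ) ^ ((1 : ℝ) / 2) < n → (J : ℝ) ≤ Real.log n := by
    intro n hn
    have h1 : Real.log ((N : ℝ) ^ ((1 : ℝ) / 2)) ≤ Real.log n :=
      Real.log_le_log (Real.rpow_pos_of_pos hNpos _) hn.le
    rw [Real.log_rpow hNpos] at h1
    linarith
  have hρ : 0 ≤ (2 * η) ^ γ := Real.rpow_nonneg (by positivity) _
  have hBadcard : ∀ cc, ((Bad cc).card : ℝ) ≤ (Real.log N + 1) *
      (m * (1 + Real.exp 1 * N * (Real.log N ^ K * (2 * η) ^ γ))) := by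
    intro cc
    refine count_blocks (Bad cc) J N hN m K _ hρ
      (fun j => {u | u ∈ Icc (j : ℝ) ((j : ℝ) + 1) ∧
        ‖∑ α, cc α * ((hh a b B D₀ α u : ℝ) : ℂ)‖ < η * ∑ α, ‖cc α‖ * hh a b B D₀ α u})
      (fun j hj => hU₀ j (hJU j hj) η hη0 hη12 cc) (fun n hn => ?_)
    rw [hBad, Finset.mem_filter, Finset.mem_Icc] at hn
    obtain ⟨⟨h1, h2⟩, h3, h4⟩ := hn
    have h5 := hlogn n h3
    have h6 : 0 ≤ Real.log n := le_trans (Nat.cast_nonneg _) h5
    exact ⟨h1, h2, h5, ⟨Nat.floor_le h6, (Nat.lt_floor_add_one _).le⟩, h4⟩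
  set CC : Finset (Ix k D → ℂ) := Fintype.piFinset (fun _ => insert 0 A) with hCC
  have hCCcard : (CC.card : ℝ) ≤ ((A.card : ℝ) + 1) ^ M := by
    have h1 : CC.card ≤ (A.card + 1) ^ M := by
      rw [hCC, Fintype.card_piFinset, Finset.prod_const, Finset.card_univ]
      exact Nat.pow_le_pow_left (Finset.card_insert_le _ _) _
    exact_mod_cast h1
  refine ⟨Finset.range (⌈(N : ℝ) ^ ((1 : ℝ) / 2)⌉₊ + 1) ∪ CC.biUnion Bad, ?_, ?_⟩
  · have h1 : ((Finset.range (⌈(N : ℝ) ^ ((1 : ℝ) / 2)⌉₊ + 1) ∪ CC.biUnion Bad).card : ℝ) ≤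
        ((N : ℝ) ^ ((1 : ℝ) / 2) + 2) + ((A.card : ℝ) + 1) ^ M * ((Real.log N + 1) *
        (m * (1 + Real.exp 1 * N * (Real.log N ^ K * (2 * η) ^ γ)))) := by
      have h2 : ((Finset.range (⌈(N : ℝ) ^ ((1 : ℝ) / 2)⌉₊ + 1) ∪ CC.biUnion Bad).card : ℝ) ≤
          ((Finset.range (⌈(N : ℝ) ^ ((1 : ℝ) / 2)⌉₊ + 1)).card : ℝ) + ((CC.biUnion Bad).card : ℝ) := by
        exact_mod_cast Finset.card_union_le _ _
      refine h2.trans (add_le_add ?_ ?_)
      · rw [Finset.card_range]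
        push_cast
        have := Nat.ceil_lt_add_one (Real.rpow_nonneg hNpos.le ((1 : ℝ) / 2))
        linarith
      · have h3 : ((CC.biUnion Bad).card : ℝ) ≤ ∑ cc ∈ CC, ((Bad cc).card : ℝ) := by
          exact_mod_cast Finset.card_biUnion_le
        refine h3.trans ((Finset.sum_le_sum fun cc _ => hBadcard cc).trans ?_)
        rw [Finset.sum_const, nsmul_eq_mul]
        refine mul_le_mul_of_nonneg_right hCCcard ?_
        have := Real.log_nonneg hN1'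
        have := Real.exp_pos 1
        positivity
    refine h1.trans ((hnum _ (Nat.cast_nonneg _) hA).trans ?_)
    have : (0 : ℝ) ≤ N₀ := Nat.cast_nonneg _
    nlinarith
  · intro n hn1 hnN hnE P hP0 hPD hPA s hs
    rw [Finset.mem_union, not_or] at hnE
    obtain ⟨hnE1, hnE2⟩ := hnE
    have hsqrt : (N : ℝ) ^ ((1 : ℝ) / 2) < n := by
      rw [Finset.mem_range, not_lt] at hnE1
      calc (N : ℝ) ^ ((1 : ℝ) / 2) ≤ ⌈(N : ℝ) ^ ((1 : ℝ) / 2)⌉₊ := Nat.le_ceil _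
        _ < ((⌈(N : ℝ) ^ ((1 : ℝ) / 2)⌉₊ + 1 : ℕ) : ℝ) := by push_cast; linarith
        _ ≤ n := by exact_mod_cast hnE1
    have hn0 : (0 : ℝ) < n := by exact_mod_cast (by omega : 0 < n)
    have hn1' : (1 : ℝ) ≤ n := by exact_mod_cast hn1
    have hPmem : (fun α : Ix k D => P.coeff (phi α)) ∈ CC := by
      rw [hCC, Fintype.mem_piFinset]
      intro α
      by_cases h0 : P.coeff (phi α) = 0
      · rw [h0]; exact Finset.mem_insert_self _ _
      · exact Finset.mem_insert_of_mem (hPA _ (MvPolynomial.mem_support_iff.2 h0))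
    have hgood : η * ∑ α : Ix k D, ‖P.coeff (phi α)‖ * hh a b B D₀ α (Real.log n) ≤
        ‖∑ α : Ix k D, P.coeff (phi α) * ((hh a b B D₀ α (Real.log n) : ℝ) : ℂ)‖ := by
      by_contra hcon
      push Not at hcon
      apply hnE2
      rw [Finset.mem_biUnion]
      exact ⟨_, hPmem, Finset.mem_filter.2 ⟨Finset.mem_Icc.2 ⟨hn1, hnN⟩, hsqrt, hcon⟩⟩
    have hsS := hpert n (hx₀N.trans hsqrt.le) s hs
    have hε0 : 0 ≤ (n : ℝ) ^ (-β) := Real.rpow_nonneg hn0.le _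
    have hεη : 2 ^ ((k + 1) * D) * (n : ℝ) ^ (-β) ≤ η / 2 := by
      have h1 : (n : ℝ) ^ (-β) ≤ (N : ℝ) ^ (-(2 * δ)) := by
        have h2 : (n : ℝ) ^ (-β) ≤ ((N : ℝ) ^ ((1 : ℝ) / 2)) ^ (-β) :=
          Real.rpow_le_rpow_of_nonpos (Real.rpow_pos_of_pos hNpos _) hsqrt.le (by linarith)
        rw [← Real.rpow_mul hNpos.le] at h2
        exact h2.trans (Real.rpow_le_rpow_of_exponent_le hN1' (by linarith))
      have h3 : (N : ℝ) ^ (-(2 * δ)) = (N : ℝ) ^ (-δ) * (N : ℝ) ^ (-δ) := by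
        rw [← Real.rpow_add hNpos]; congr 1; ring
      calc 2 ^ ((k + 1) * D) * (n : ℝ) ^ (-β) ≤
            2 ^ ((k + 1) * D) * ((N : ℝ) ^ (-δ) * (N : ℝ) ^ (-δ)) := by
            rw [← h3]; gcongr
        _ = (2 ^ ((k + 1) * D) * (N : ℝ) ^ (-δ)) * (N : ℝ) ^ (-δ) := by ring
        _ ≤ 1 * (N : ℝ) ^ (-δ) := by gcongr
        _ ≤ η / 2 := by rw [hη]; linarith
    have hmain := good_pert ha hB hD (D := D) hn0 hε0 hη0 (by linarith) hεη hsS P hPD hgood
    have hspos : ∀ i, |s i| = s i := by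
      intro i
      have h1 := abs_le.1 (hsS i)
      have h2 : 0 < VV a b B D₀ n (some i) := VV_pos ha hB hD hn0 (some i)
      have h3 : (n : ℝ) ^ (-β) ≤ 1 / 4 := by
        have h4 : (1 : ℝ) ≤ 2 ^ ((k + 1) * D) := one_le_pow₀ one_le_two
        nlinarith
      have h5 : (n : ℝ) ^ (-β) * VV a b B D₀ n (some i) ≤ 1 / 4 * VV a b B D₀ n (some i) := by
        gcongr
      exact abs_of_nonneg (by linarith [h1.1])
    have hvv : (fun o : Option (Fin k) => o.elim (n : ℂ) (fun i => ((s i : ℝ) : ℂ))) =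
        fun o => ((vv (n : ℝ) s o : ℝ) : ℂ) := by
      funext o
      cases o with
      | none => simp [vv]
      | some i => simp [vv]
    rw [hvv]
    have h4η : 4 / η ≤ (N : ℝ) ^ κ := by
      have h1 : 4 / η = (N : ℝ) ^ δ := by
        rw [hη, Real.rpow_neg hNpos.le]
        have : (N : ℝ) ^ δ ≠ 0 := (Real.rpow_pos_of_pos hNpos _).ne'
        field_simp
      rw [h1]
      exact Real.rpow_le_rpow_of_exponent_le hN1' hδκ
    -- exponents occurring in `P`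
    have hex : ∀ d : Option (Fin k) →₀ ℕ, P.coeff d ≠ 0 → ∃ α : Ix k D, phi α = d := by
      intro d hd
      have hle : ∀ o, d o ≤ D := fun o =>
        (MvPolynomial.monomial_le_degreeOf o (MvPolynomial.mem_support_iff.2 hd)).trans
          ((MvPolynomial.degreeOf_le_totalDegree P o).trans hPD)
      refine ⟨fun o => ⟨d o, Nat.lt_succ_of_le (hle o)⟩, ?_⟩
      ext o
      rw [phi_apply]
    constructor
    · obtain ⟨d, hd⟩ := MvPolynomial.ne_zero_iff.1 hP0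
      obtain ⟨α, rfl⟩ := hex d hd
      obtain ⟨h1, h2⟩ := hmain α
      intro h0
      rw [h0, norm_zero, mul_zero] at h2
      have h3 : 0 < ‖P.coeff (phi α)‖ * ∏ o, vv (n : ℝ) s o ^ (α o : ℕ) :=
        mul_pos (norm_pos_iff.2 hd) h1
      linarith
    · intro d
      by_cases hd : P.coeff d = 0
      · rw [hd, norm_zero, zero_mul]
        exact mul_nonneg (Real.rpow_nonneg hNpos.le _) (norm_nonneg _)
      · obtain ⟨α, rfl⟩ := hex d hd
        have h2 := (hmain α).2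
        have h3 : (n : ℝ) ^ (phi α none) * ∏ i, |s i| ^ (phi α (some i)) =
            ∏ o, vv (n : ℝ) s o ^ (α o : ℕ) := by
          rw [Fintype.prod_option]
          simp only [phi_apply, hspos]
          rfl
        rw [h3]
        exact h2.trans (mul_le_mul_of_nonneg_right h4η (norm_nonneg _))

end Pool.Agent.Lib.MP_ec260d_ntH
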