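import Mathlib
import Pool.Agent.Lib.MP_ec260d_nt.OrdIdx
import Pool.Agent.Lib.MP_ec260d_ntH.Unif

/-!
# Uniform version for the ordinates with index `⌊a i * n ^ (b i)⌋` and integral polynomials
-/

open Set Filter Topology

namespace Pool.Agent.Lib.MP_ec260d_ntH

open Pool.Agent.Lib.MP_ec260d_nt

/-- the index of the ordinate `⌊a x ^ b⌋` is near `a x ^ b` -/
theorem ordinate_near {a b θ : ℝ} (ha : 0 < a) (hb : 0 < b) (hθb : 4 * θ ≤ b) :
    ∀ᶠ x : ℝ in atTop, |(zeroCount (ordinate ⌊a * x ^ b⌋₊) : ℝ) - a * x ^ b| ≤ x ^ (b - θ) := by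
  obtain ⟨C, hC, m₀, hord⟩ := ordinate_spec
  set c : ℝ := C * a ^ ((1 : ℝ) / 2) + 1 with hc
  have hc0 : 0 < c := by
    have : 0 ≤ a ^ ((1 : ℝ) / 2) := Real.rpow_nonneg ha.le _
    positivity
  have h1 : ∀ᶠ x : ℝ in atTop, c ≤ x ^ (b / 4) :=
    (tendsto_rpow_atTop (by positivity)).eventually_ge_atTop c
  have h3 : Tendsto (fun x : ℝ => a * x ^ b) atTop atTop := (tendsto_rpow_atTop hb).const_mul_atTop ha
  filter_upwards [h1, h3.eventually_ge_atTop ((m₀ : ℝ) + 1), eventually_ge_atTop (1 : ℝ)] with x h1 h2 hx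
  have hx0 : 0 < x := by linarith
  set y : ℝ := x ^ b with hy
  have hy0 : 0 < y := Real.rpow_pos_of_pos hx0 _
  have hy1 : 1 ≤ y := Real.one_le_rpow hx hb.le
  set m : ℕ := ⌊a * y⌋₊ with hm
  have hay : 0 ≤ a * y := by positivity
  have hm1 : (m : ℝ) ≤ a * y := Nat.floor_le hay
  have hm2 : a * y < m + 1 := Nat.lt_floor_add_one _
  have hm3 : m₀ ≤ m := by
    have : (m₀ : ℝ) < m + 1 := by linarith
    have : m₀ < m + 1 := by exact_mod_cast this
    omega
  have h4 : |(zeroCount (ordinate m) : ℝ) - a * y| ≤ C * (m : ℝ) ^ ((1 : ℝ) / 2) + 1 := by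
    have h5 : (zeroCount (ordinate m) : ℝ) - a * y =
        ((zeroCount (ordinate m) : ℝ) - m) + (m - a * y) := by ring
    rw [h5]
    refine (abs_add_le _ _).trans (add_le_add (hord m hm3) ?_)
    rw [abs_le]
    constructor <;> linarith
  refine h4.trans ?_
  have h5 : (m : ℝ) ^ ((1 : ℝ) / 2) ≤ a ^ ((1 : ℝ) / 2) * y ^ ((1 : ℝ) / 2) := by
    rw [← Real.mul_rpow ha.le hy0.le]
    exact Real.rpow_le_rpow (Nat.cast_nonneg _) hm1 (by norm_num)
  have h6 : y ^ ((1 : ℝ) / 2) = x ^ (b / 2) := by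
    rw [hy, ← Real.rpow_mul hx0.le]
    congr 1
    ring
  have h7 : (1 : ℝ) ≤ y ^ ((1 : ℝ) / 2) := Real.one_le_rpow hy1 (by norm_num)
  have hC5 := mul_le_mul_of_nonneg_left h5 hC
  have h9 : C * (m : ℝ) ^ ((1 : ℝ) / 2) + 1 ≤ c * y ^ ((1 : ℝ) / 2) := by
    rw [hc]
    nlinarith
  refine h9.trans ?_
  rw [h6]
  calc c * x ^ (b / 2) ≤ x ^ (b / 4) * x ^ (b / 2) := by
        have := Real.rpow_pos_of_pos hx0 (b / 2)
        gcongr
    _ = x ^ (b / 4 + b / 2) := (Real.rpow_add hx0 _ _).symm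
    _ ≤ x ^ (b - θ) := Real.rpow_le_rpow_of_exponent_le hx (by linarith)

/-- large ordinates are at least one -/
theorem ordinate_ge_one {m : ℕ} (hm : zeroCount 1 < m) : 1 ≤ ordinate m := by
  obtain ⟨C, hC, m₀, hord⟩ := ordinate_spec
  unfold ordinate
  by_cases hne : {T : ℝ | m ≤ zeroCount T}.Nonempty
  · refine le_csInf hne fun T hT => ?_
    by_contra hcon
    push Not at hcon
    have h1 := zeroCount_mono hcon.le
    have h2 : m ≤ zeroCount T := hT
    omega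
  · exfalso
    apply hne
    -- some ordinate of larger index is defined by a nonempty set
    obtain ⟨q, hq⟩ : ∃ q : ℕ, (C + 1) ^ 2 * 4 ≤ (q : ℝ) := exists_nat_ge _
    obtain ⟨m', hm'0, hm'1⟩ : ∃ m' : ℕ, m₀ ≤ m' ∧ m + q + 4 * m + 4 ≤ m' :=
      ⟨max m₀ (m + q + 4 * m + 4), le_max_left _ _, le_max_right _ _⟩
    have h1 := hord m' hm'0
    have h2 : (m : ℝ) + 1 ≤ (m' : ℝ) - C * (m' : ℝ) ^ ((1 : ℝ) / 2) := by
      have h3 : (m : ℝ) + q + 4 * m + 4 ≤ m' := by
        exact_mod_cast hm'1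
      have h5 : (0 : ℝ) ≤ m := Nat.cast_nonneg _
      have h6 : (0 : ℝ) ≤ m' := Nat.cast_nonneg _
      set r := (m' : ℝ) ^ ((1 : ℝ) / 2) with hr
      have hr0 : 0 ≤ r := Real.rpow_nonneg h6 _
      have hrr : r * r = m' := by
        rw [hr, ← Real.sqrt_eq_rpow, Real.mul_self_sqrt h6]
      have h7 : 2 * (C + 1) ≤ r := by
        by_contra hcon
        push Not at hcon
        nlinarith
      nlinarith
    have h3 : (m : ℝ) + 1 ≤ zeroCount (ordinate m') := by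
      have := (abs_le.1 h1).1
      linarith
    refine ⟨ordinate m', ?_⟩
    have : m + 1 ≤ zeroCount (ordinate m') := by exact_mod_cast h3
    show m ≤ zeroCount (ordinate m')
    omega

theorem unifOrd (k D : ℕ) (a b : Fin k → ℝ) (ha : ∀ i, 0 < a i) (hb : ∀ i, 0 < b i)
    (hinj : Function.Injective (fun i => (a i, b i))) (κ : ℝ) (hκ : 0 < κ) :
    ∃ c C : ℝ, 0 < c ∧ ∀ N : ℕ, 1 ≤ N →
      ∃ E : Finset ℕ, (E.card : ℝ) ≤ C * (N : ℝ) ^ (1 - c) ∧
        ∀ n : ℕ, 1 ≤ n → n ≤ N → n ∉ E →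
          ∀ P : MvPolynomial (Option (Fin k)) ℤ, P ≠ 0 → P.totalDegree ≤ D →
            (∀ α, |((P.coeff α : ℤ) : ℝ)| ≤ (N : ℝ) ^ c) →
              (N : ℝ) ^ (-κ) ≤ |MvPolynomial.aeval (fun o : Option (Fin k) =>
                o.elim (n : ℝ) (fun i => ordinate ⌊a i * (n : ℝ) ^ (b i)⌋₊)) P| := by
  classical
  obtain ⟨θ, hθ, hθb⟩ : ∃ θ : ℝ, 0 < θ ∧ ∀ i, 4 * θ ≤ b i := by
    have h2 : ∀ᶠ β in 𝓝[>] (0 : ℝ), ∀ i, β ≤ b i / 4 :=
      eventually_all.2 fun i => mem_nhdsWithin_of_mem_nhds (Iic_mem_nhds (by have := hb i; positivity))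
    have h3 : ∀ᶠ β in 𝓝[>] (0 : ℝ), 0 < β := eventually_mem_nhdsWithin
    obtain ⟨β, h5, h6⟩ := (h2.and h3).exists
    exact ⟨β, h6, fun i => by have := h5 i; linarith⟩
  obtain ⟨c, C, hc, hmain⟩ := unif k D a b ha hb hinj θ κ hθ hκ
  -- large `n`
  have hev : ∀ᶠ x : ℝ in atTop, ∀ i : Fin k,
      |(zeroCount (ordinate ⌊a i * x ^ (b i)⌋₊) : ℝ) - a i * x ^ (b i)| ≤ x ^ (b i - θ) ∧
      (zeroCount 1 : ℝ) + 1 ≤ a i * x ^ (b i) := by
    refine eventually_all.2 fun i => ?_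
    have h3 : Tendsto (fun x : ℝ => a i * x ^ (b i)) atTop atTop :=
      (tendsto_rpow_atTop (hb i)).const_mul_atTop (ha i)
    exact (ordinate_near (ha i) (hb i) (hθb i)).and (h3.eventually_ge_atTop _)
  obtain ⟨X, hX⟩ := eventually_atTop.1 hev
  -- large `N`
  have hevN : ∀ᶠ N : ℝ in atTop, 2 * N ^ (c / 2) + 1 ≤ N ^ c := by
    have h1 : ∀ᶠ N : ℝ in atTop, 3 ≤ N ^ (c / 2) :=
      (tendsto_rpow_atTop (by positivity)).eventually_ge_atTop 3
    filter_upwards [h1, eventually_gt_atTop (0 : ℝ)] with N h1 h0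
    have h2 : N ^ c = N ^ (c / 2) * N ^ (c / 2) := by
      rw [← Real.rpow_add h0]; congr 1; ring
    rw [h2]
    nlinarith
  obtain ⟨N₀, hN₀⟩ := eventually_atTop.1 hevN
  set c' := min (c / 2) 1 with hc'
  have hc'0 : 0 < c' := lt_min (by positivity) one_pos
  have hc'1 : c' ≤ 1 := min_le_right _ _
  have hc'c : c' ≤ c / 2 := min_le_left _ _
  refine ⟨c', |C| + ⌈X⌉₊ + ⌈N₀⌉₊ + 2, hc'0, fun N hN => ?_⟩
  have hNpos : (0 : ℝ) < N := by exact_mod_cast (by omega : 0 < N)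
  have hN1 : (1 : ℝ) ≤ N := by exact_mod_cast hN
  have hNc : 1 ≤ (N : ℝ) ^ (1 - c') := Real.one_le_rpow hN1 (by linarith)
  have hX0 : (0 : ℝ) ≤ ⌈X⌉₊ := Nat.cast_nonneg _
  have hN00 : (0 : ℝ) ≤ ⌈N₀⌉₊ := Nat.cast_nonneg _
  have hC0 := abs_nonneg C
  rcases lt_or_ge N ⌈N₀⌉₊ with hlt | hge
  · refine ⟨Finset.range (N + 1), ?_, fun n _ h2 h3 => absurd (Finset.mem_range.2 (by omega)) h3⟩
    rw [Finset.card_range]
    have h1 : ((N + 1 : ℕ) : ℝ) ≤ ⌈N₀⌉₊ := by exact_mod_cast hlt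
    nlinarith
  · have hNN₀ : N₀ ≤ N := (Nat.le_ceil _).trans (by exact_mod_cast hge)
    set H : ℤ := ⌊(N : ℝ) ^ (c / 2)⌋ with hH
    set A : Finset ℂ := (Finset.Icc (-H) H).image (fun z : ℤ => (z : ℂ)) with hA
    have hH0 : 0 ≤ H := Int.floor_nonneg.2 (Real.rpow_nonneg hNpos.le _)
    have hAcard : (A.card : ℝ) ≤ (N : ℝ) ^ c := by
      have h1 : A.card ≤ (Finset.Icc (-H) H).card := Finset.card_image_le
      rw [Int.card_Icc] at h1
      have h2 : ((H + 1 - -H).toNat : ℝ) = 2 * H + 1 := by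
        have h3 : ((H + 1 - -H).toNat : ℤ) = 2 * H + 1 := by omega
        exact_mod_cast h3
      calc (A.card : ℝ) ≤ ((H + 1 - -H).toNat : ℝ) := by exact_mod_cast h1
        _ = 2 * H + 1 := h2
        _ ≤ 2 * (N : ℝ) ^ (c / 2) + 1 := by
            have := Int.floor_le ((N : ℝ) ^ (c / 2))
            linarith
        _ ≤ _ := hN₀ N hNN₀
    obtain ⟨E, hE, hgood⟩ := hmain N hN A hAcard
    refine ⟨E ∪ Finset.range (⌈X⌉₊ + 1), ?_, ?_⟩
    · have h1 : ((E ∪ Finset.range (⌈X⌉₊ + 1)).card : ℝ) ≤ E.card + (⌈X⌉₊ + 1) := by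
        have := Finset.card_union_le E (Finset.range (⌈X⌉₊ + 1))
        rw [Finset.card_range] at this
        exact_mod_cast this
      have h2 : C * (N : ℝ) ^ (1 - c) ≤ |C| * (N : ℝ) ^ (1 - c') := by
        have h3 : (N : ℝ) ^ (1 - c) ≤ (N : ℝ) ^ (1 - c') :=
          Real.rpow_le_rpow_of_exponent_le hN1 (by linarith)
        have h4 : 0 ≤ (N : ℝ) ^ (1 - c) := Real.rpow_nonneg hNpos.le _
        calc C * (N : ℝ) ^ (1 - c) ≤ |C| * (N : ℝ) ^ (1 - c) :=
              mul_le_mul_of_nonneg_right (le_abs_self _) h4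
          _ ≤ _ := mul_le_mul_of_nonneg_left h3 (abs_nonneg _)
      nlinarith
    · intro n hn1 hnN hnE P hP0 hPD hPH
      rw [Finset.mem_union, not_or, Finset.mem_range, not_lt] at hnE
      obtain ⟨hnE1, hnX⟩ := hnE
      have hnX' : X ≤ n := (Nat.le_ceil _).trans (by exact_mod_cast (by omega : ⌈X⌉₊ ≤ n))
      have hi := hX n hnX'
      set s : Fin k → ℝ := fun i => ordinate ⌊a i * (n : ℝ) ^ (b i)⌋₊ with hs
      set P' : MvPolynomial (Option (Fin k)) ℂ := MvPolynomial.map (Int.castRingHom ℂ) P with hP'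
      have hcoeff : ∀ α, P'.coeff α = ((P.coeff α : ℤ) : ℂ) := fun α => by
        rw [hP', MvPolynomial.coeff_map]; rfl
      have hP'0 : P' ≠ 0 := by
        intro h0
        apply hP0
        exact MvPolynomial.map_injective _ (Int.castRingHom ℂ).injective_int (by rw [← hP', h0, map_zero])
      have hP'D : P'.totalDegree ≤ D := by
        refine le_trans ?_ hPD
        exact Finset.sup_mono (MvPolynomial.support_map_subset _ _)
      have hP'A : ∀ α ∈ P'.support, P'.coeff α ∈ A := by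
        intro α _
        rw [hcoeff, hA, Finset.mem_image]
        refine ⟨P.coeff α, ?_, rfl⟩
        have h1 := hPH α
        have h2 : |((P.coeff α : ℤ) : ℝ)| ≤ (N : ℝ) ^ (c / 2) :=
          h1.trans (Real.rpow_le_rpow_of_exponent_le hN1 hc'c)
        rw [abs_le] at h2
        rw [Finset.mem_Icc]
        constructor
        · have h3 : -(P.coeff α) ≤ H := Int.le_floor.2 (by push_cast; linarith [h2.1])
          linarith
        · exact Int.le_floor.2 h2.2
      obtain ⟨-, hmon⟩ := hgood n hn1 hnN hnE1 P' hP'0 hP'D hP'A s (fun i => (hi i).1)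
      obtain ⟨α, hα⟩ := MvPolynomial.ne_zero_iff.1 hP0
      have h1 := hmon α
      -- the evaluation
      have hev : MvPolynomial.eval (fun o : Option (Fin k) => o.elim (n : ℂ) (fun i => ((s i : ℝ) : ℂ))) P' =
          ((MvPolynomial.aeval (fun o : Option (Fin k) => o.elim (n : ℝ) s) P : ℝ) : ℂ) := by
        rw [hP', MvPolynomial.eval_map]
        have h2 := MvPolynomial.eval₂_comp_left (Complex.ofRealHom) (Int.castRingHom ℝ)
          (fun o : Option (Fin k) => o.elim (n : ℝ) s) P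
        have h3 : MvPolynomial.aeval (fun o : Option (Fin k) => o.elim (n : ℝ) s) P =
            MvPolynomial.eval₂ (Int.castRingHom ℝ) (fun o : Option (Fin k) => o.elim (n : ℝ) s) P := by
          rw [MvPolynomial.aeval_def]
          rfl
        rw [h3]
        have h4 : (Complex.ofRealHom : ℝ →+* ℂ).comp (Int.castRingHom ℝ) = Int.castRingHom ℂ :=
          RingHom.ext_int _ _
        rw [h4] at h2
        refine Eq.trans ?_ h2.symm
        congr 1
        funext o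
        cases o with
        | none => simp
        | some i => simp
      rw [hev, Complex.norm_real, Real.norm_eq_abs, hcoeff] at h1
      have h2 : (1 : ℝ) ≤ ‖((P.coeff α : ℤ) : ℂ)‖ := by
        rw [Complex.norm_intCast]
        have h3 : 1 ≤ |P.coeff α| := Int.one_le_abs hα
        exact_mod_cast h3
      have h3 : (1 : ℝ) ≤ (n : ℝ) ^ (α none) * ∏ i, |s i| ^ (α (some i)) := by
        have h4 : (1 : ℝ) ≤ (n : ℝ) ^ (α none) := one_le_pow₀ (by exact_mod_cast hn1)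
        have h5 : (1 : ℝ) ≤ ∏ i, |s i| ^ (α (some i)) := by
          refine Finset.one_le_prod fun i _ => one_le_pow₀ ?_
          refine le_trans (ordinate_ge_one ?_) (le_abs_self _)
          have h6 := (hi i).2
          have h7 : a i * (n : ℝ) ^ (b i) < (⌊a i * (n : ℝ) ^ (b i)⌋₊ : ℝ) + 1 :=
            Nat.lt_floor_add_one _
          have h8 : (zeroCount 1 : ℝ) < ⌊a i * (n : ℝ) ^ (b i)⌋₊ := by linarith
          exact_mod_cast h8
        nlinarith
      have h4 : (1 : ℝ) ≤ (N : ℝ) ^ κ * |MvPolynomial.aeval (fun o : Option (Fin k) => o.elim (n : ℝ) s) P| := by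
        refine le_trans ?_ h1
        nlinarith
      rw [Real.rpow_neg hNpos.le]
      have h5 : 0 < (N : ℝ) ^ κ := Real.rpow_pos_of_pos hNpos _
      rw [inv_le_iff_one_le_mul₀ h5, mul_comm]
      exact h4

end Pool.Agent.Lib.MP_ec260d_ntH
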